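import Mathlib
import Pool.Agent.Helper844.Sys

set_option autoImplicit false

/-!
# Every c.e. relation is defined by a system of integral quadratic equations
-/

namespace Pool.Agent.Q223.IS

open Pool.Agent.Helper844.Sys Pool.Agent.Helper844.Dio

/-- `L` is a system of equations which defines `R` (on the values of the unknowns `n`, `m`). -/
def Defines (R : ℕ → ℕ → Prop) {X : Type} (n m : X) (L : List (Eqn X)) : Prop :=
  ∀ a b : ℤ, (∃ v : X → ℤ, v n = a ∧ v m = b ∧ ∀ q ∈ L, q.Holds v) ↔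
    ∃ a' b' : ℕ, a = a' ∧ b = b' ∧ R a' b'

/-- The relation as a set of codes. -/
def Sc (R : ℕ → ℕ → Prop) (k : ℕ) : Prop :=
  R (k - k.sqrt * k.sqrt) (k.sqrt - (k - k.sqrt * k.sqrt))

theorem Sc_re {R : ℕ → ℕ → Prop} (hR : REPred fun p : ℕ × ℕ => R p.1 p.2) : REPred (Sc R) := by
  have h1 : Primrec fun k : ℕ => (k - k.sqrt * k.sqrt, k.sqrt - (k - k.sqrt * k.sqrt)) := by
    have hs : Primrec fun k : ℕ => k.sqrt := Primrec.nat_sqrt
    have h2 : Primrec fun k : ℕ => k - k.sqrt * k.sqrt :=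
      Primrec.nat_sub.comp Primrec.id (Primrec.nat_mul.comp hs hs)
    exact Primrec.pair h2 (Primrec.nat_sub.comp hs h2)
  exact Partrec.comp hR h1.to_comp

theorem Sc_code (R : ℕ → ℕ → Prop) (a b : ℕ) : Sc R ((a + b) * (a + b) + a) ↔ R a b := by
  have h : Nat.sqrt ((a + b) * (a + b) + a) = a + b := Nat.sqrt_add_eq _ (by omega)
  unfold Sc
  rw [h]
  have h1 : (a + b) * (a + b) + a - (a + b) * (a + b) = a := by omega
  rw [h1]
  have h2 : a + b - a = b := by omega
  rw [h2]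

theorem arith (R : ℕ → ℕ → Prop) (hR : REPred fun p : ℕ × ℕ => R p.1 p.2) :
    ∃ (X : Type) (_ : Fintype X) (n m : X) (L : List (Eqn X)), n ≠ m ∧ Defines R n m L := by
  classical
  obtain ⟨V, _, f, L, hL⟩ := exists_system (Sc R) (dprm (Sc_re hR))
  let X := V ⊕ Fin 2 ⊕ (Fin 2 × Fin 4) ⊕ (Fin 2 × Fin 3) ⊕ Unit
  let z : Fin 2 → X := fun g => Sum.inr (Sum.inl g)
  let a : Fin 2 × Fin 4 → X := fun g => Sum.inr (Sum.inr (Sum.inl g))
  let u : Fin 2 × Fin 3 → X := fun g => Sum.inr (Sum.inr (Sum.inr (Sum.inl g)))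
  let s : X := Sum.inr (Sum.inr (Sum.inr (Sum.inr ())))
  let L' : List (Eqn X) :=
    ⟨s, s, z 0, z 1, s, 0, 1, 1, -1, 0⟩ ::
    ⟨s, s, Sum.inl f, z 0, s, 4, 1, 4, 0, -1⟩ ::
    (L.map (Eqn.map Sum.inl) ++ [(0 : Fin 2), 1].flatMap (sq4 z a u))
  refine ⟨X, inferInstance, z 0, z 1, L', fun h => absurd
    (Sum.inl.inj (Sum.inr.inj h) : (0 : Fin 2) = 1) (by decide), ?_⟩
  intro α β
  constructor
  · rintro ⟨v, h0, h1, hv⟩
    have e1 := hv _ List.mem_cons_self
    have e2 := hv _ (List.mem_cons_of_mem _ List.mem_cons_self)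
    have e3 : ∀ q ∈ L, q.Holds (v ∘ Sum.inl) := by
      intro q hq
      rw [← Eqn.holds_map]
      exact hv _ (List.mem_cons_of_mem _ (List.mem_cons_of_mem _
        (List.mem_append_left _ (List.mem_map_of_mem hq))))
    have h4 : ∀ g : Fin 2, ∀ q ∈ sq4 z a u g, q.Holds v := by
      intro g q hq
      refine hv _ (List.mem_cons_of_mem _ (List.mem_cons_of_mem _
        (List.mem_append_right _ ?_)))
      rw [List.mem_flatMap]
      refine ⟨g, ?_, hq⟩
      fin_cases g <;> simp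
    have h5 : ∀ g : Fin 2, 0 ≤ v (z g) := by
      intro g
      have q0 := h4 g _ (by simp only [sq4]; exact List.mem_cons_self)
      have q1 := h4 g _ (by
        simp only [sq4]; exact List.mem_cons_of_mem _ List.mem_cons_self)
      have q2 := h4 g _ (by
        simp only [sq4]
        exact List.mem_cons_of_mem _ (List.mem_cons_of_mem _ List.mem_cons_self))
      have q3 := h4 g _ (by
        simp only [sq4]
        exact List.mem_cons_of_mem _ (List.mem_cons_of_mem _
          (List.mem_cons_of_mem _ List.mem_cons_self)))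
      simp only [Eqn.Holds] at q0 q1 q2 q3
      nlinarith [mul_self_nonneg (v (a (g, 0))), mul_self_nonneg (v (a (g, 1))),
        mul_self_nonneg (v (a (g, 2))), mul_self_nonneg (v (a (g, 3)))]
    have hα : 0 ≤ α := h0 ▸ h5 0
    have hβ : 0 ≤ β := h1 ▸ h5 1
    obtain ⟨a', rfl⟩ := Int.eq_ofNat_of_zero_le hα
    obtain ⟨b', rfl⟩ := Int.eq_ofNat_of_zero_le hβ
    refine ⟨a', b', rfl, rfl, ?_⟩
    obtain ⟨k, hk, hk'⟩ := (hL (v (Sum.inl f))).1 ⟨v ∘ Sum.inl, rfl, e3⟩
    simp only [Eqn.Holds] at e1 e2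
    have hs : v s = a' + b' := by rw [h0, h1] at e1; linarith
    rw [hs, h0, hk'] at e2
    have hk2 : (k : ℤ) = (a' + b') * (a' + b') + a' := by linarith
    have hk3 : k = (a' + b') * (a' + b') + a' := by exact_mod_cast hk2
    rw [hk3, Sc_code] at hk
    exact hk
  · rintro ⟨a', b', rfl, rfl, hab⟩
    have hk := (Sc_code R a' b').2 hab
    obtain ⟨x, hx, hx'⟩ := (hL (1 - 4 * (((a' + b') * (a' + b') + a' : ℕ) : ℤ))).2 ⟨_, hk, rfl⟩
    have hsq : ∀ g : Fin 2, ∃ s : Fin 4 → ℤ,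
        s 0 * s 0 + s 1 * s 1 + s 2 * s 2 + s 3 * s 3 = (![a', b'] g : ℕ) := by
      intro g
      obtain ⟨c0, c1, c2, c3, hc⟩ := Nat.sum_four_squares (![a', b'] g)
      refine ⟨![c0, c1, c2, c3], ?_⟩
      have : ((c0 ^ 2 + c1 ^ 2 + c2 ^ 2 + c3 ^ 2 : ℕ) : ℤ) = (![a', b'] g : ℕ) := by
        exact_mod_cast hc
      push_cast at this
      simp only [Matrix.cons_val_zero, Matrix.cons_val_one, Matrix.cons_val]
      linarith
    choose t ht using hsq
    let v : X → ℤ := Sum.elim x (Sum.elim (fun g => (![a', b'] g : ℕ)) (Sum.elim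
      (fun g => t g.1 g.2) (Sum.elim (fun g => ![t g.1 0 * t g.1 0,
        t g.1 0 * t g.1 0 + t g.1 1 * t g.1 1,
        t g.1 0 * t g.1 0 + t g.1 1 * t g.1 1 + t g.1 2 * t g.1 2] g.2)
      (fun _ => (a' : ℤ) + b'))))
    refine ⟨v, rfl, rfl, ?_⟩
    intro q hq
    simp only [L', List.mem_cons, List.mem_append, List.mem_map, List.mem_flatMap] at hq
    rcases hq with rfl | rfl | ⟨q, hq, rfl⟩ | ⟨g, -, hq⟩
    · have h1 : v (z 0) = a' := rfl
      have h2 : v (z 1) = b' := rfl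
      have h3 : v s = a' + b' := rfl
      simp only [Eqn.Holds, h1, h2, h3]
      ring
    · have h1 : v (z 0) = a' := rfl
      have h3 : v s = a' + b' := rfl
      have h4 : v (Sum.inl f) = 1 - 4 * (((a' + b') * (a' + b') + a' : ℕ) : ℤ) := hx
      simp only [Eqn.Holds, h1, h3, h4]
      push_cast
      ring
    · rw [Eqn.holds_map]
      exact hx' q hq
    · have hg := ht g
      simp only [sq4, List.mem_cons, List.not_mem_nil, or_false] at hq
      have ha : ∀ i, v (a (g, i)) = t g i := fun i => rfl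
      have hu0 : v (u (g, 0)) = t g 0 * t g 0 := rfl
      have hu1 : v (u (g, 1)) = t g 0 * t g 0 + t g 1 * t g 1 := rfl
      have hu2 : v (u (g, 2)) = t g 0 * t g 0 + t g 1 * t g 1 + t g 2 * t g 2 := rfl
      have hz : v (z g) = (![a', b'] g : ℕ) := rfl
      rcases hq with rfl | rfl | rfl | rfl
      · simp only [Eqn.Holds, ha, hu0]
        ring
      · simp only [Eqn.Holds, ha, hu0, hu1]
        ring
      · simp only [Eqn.Holds, ha, hu1, hu2]
        ring
      · simp only [Eqn.Holds, ha, hu2, hz]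
        linarith

end Pool.Agent.Q223.IS
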