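import Pool.Agent.Q223.IS.Tow

set_option autoImplicit false
set_option linter.unusedSectionVars false

/-!
# The groups `G(n)`, abstractly
-/

namespace Pool.Agent.Q223.IS

open Monoid SemidirectProduct

section Chr

variable {A H ι : Type} [Group H] (p : FreeGroup A →* H) (r s : ι → FreeGroup A)

/-- The subgroup `R'` of `F × F`. -/
def RR : Subgroup (FreeGroup A × FreeGroup A) :=
  Subgroup.closure (Set.range (fun i => (r i, (1 : FreeGroup A))) ∪
    Set.range (fun i => ((1 : FreeGroup A), s i)))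

variable (O : Set H)

open Classical in
/-- The signs. -/
noncomputable def sgn : FreeGroup H →* ℤˣ := FreeGroup.lift (fun h => if h ∈ O then -1 else 1)

variable {p r s O}

theorem sgn_act (h1 : ∀ i h, p (r i) * h ∈ O ↔ h ∈ O) (h2 : ∀ i h, h * (p (s i))⁻¹ ∈ O ↔ h ∈ O)
    {γ : FreeGroup A × FreeGroup A} (hγ : γ ∈ RR r s) (f : FreeGroup H) :
    sgn O (act p γ f) = sgn O f := by
  classical
  let S : Subgroup (FreeGroup A × FreeGroup A) :=
    { carrier := {γ | ∀ h, p γ.1 * h * (p γ.2)⁻¹ ∈ O ↔ h ∈ O}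
      one_mem' := by
        intro h
        simp
      mul_mem' := by
        intro a b ha hb h
        have e : p (a * b).1 * h * (p (a * b).2)⁻¹ =
            p a.1 * (p b.1 * h * (p b.2)⁻¹) * (p a.2)⁻¹ := by
          simp [mul_assoc]
        rw [e, ha, hb]
      inv_mem' := by
        intro a ha h
        rw [← ha]
        have e : p a.1 * (p a⁻¹.1 * h * (p a⁻¹.2)⁻¹) * (p a.2)⁻¹ = h := by
          simp [mul_assoc]
        rw [e] }
  have hS : γ ∈ S := by
    refine (Subgroup.closure_le _).2 ?_ hγ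
    rintro _ (⟨i, rfl⟩ | ⟨i, rfl⟩)
    · intro h
      simpa using h1 i h
    · intro h
      simpa using h2 i h
  have : (sgn O).comp (act p γ).toMonoidHom = sgn O := by
    apply FreeGroup.ext_hom
    intro h
    show sgn O (act p γ (FreeGroup.of h)) = _
    rw [act_of]
    unfold sgn
    rw [FreeGroup.lift_apply_of, FreeGroup.lift_apply_of]
    have := hS h
    simp only [this]
  exact DFunLike.congr_fun this f

/-- The character. -/
theorem exists_chr (h1 : ∀ i h, p (r i) * h ∈ O ↔ h ∈ O) (h2 : ∀ i h, h * (p (s i))⁻¹ ∈ O ↔ h ∈ O) :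
    ∃ (M : Subgroup (KK p)) (χ : M →* ℤˣ),
      (∀ i, ∃ h : wa p (r i) ∈ M, χ ⟨_, h⟩ = 1) ∧ (∀ i, ∃ h : wb p (s i) ∈ M, χ ⟨_, h⟩ = 1) ∧
      (∀ u, p u ∈ O → ∃ h : Tt p u ∈ M, χ ⟨_, h⟩ = -1) ∧
      (∀ u, p u ∉ O → ∃ h : Tt p u ∈ M, χ ⟨_, h⟩ = 1) := by
  classical
  let M : Subgroup (KK p) := (RR r s).comap SemidirectProduct.rightHom
  let χ : M →* ℤˣ :=
    { toFun := fun x => sgn O x.1.left
      map_one' := by
        show sgn O (1 : KK p).left = 1
        rw [SemidirectProduct.one_left, map_one]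
      map_mul' := by
        intro x y
        show sgn O (x.1 * y.1).left = _
        rw [SemidirectProduct.mul_left, map_mul, sgn_act (γ := x.1.right) h1 h2 x.2] }
  have hT : ∀ u, Tt p u ∈ M := by
    intro u
    rw [Tt_eq]
    show (SemidirectProduct.rightHom (inl _ : KK p)) ∈ RR r s
    rw [SemidirectProduct.rightHom_inl]
    exact one_mem _
  have hTl : ∀ u, (Tt p u).left = FreeGroup.of (p u) := by
    intro u
    rw [Tt_eq, SemidirectProduct.left_inl]
  refine ⟨M, χ, ?_, ?_, ?_, ?_⟩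
  · intro i
    refine ⟨?_, ?_⟩
    · show (SemidirectProduct.rightHom (inr (r i, 1) : KK p)) ∈ RR r s
      rw [SemidirectProduct.rightHom_inr]
      exact Subgroup.subset_closure (Or.inl ⟨i, rfl⟩)
    · show sgn O (inr (r i, 1) : KK p).left = 1
      rw [SemidirectProduct.left_inr, map_one]
  · intro i
    refine ⟨?_, ?_⟩
    · show (SemidirectProduct.rightHom (inr (1, s i) : KK p)) ∈ RR r s
      rw [SemidirectProduct.rightHom_inr]
      exact Subgroup.subset_closure (Or.inr ⟨i, rfl⟩)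
    · show sgn O (inr (1, s i) : KK p).left = 1
      rw [SemidirectProduct.left_inr, map_one]
  · intro u hu
    refine ⟨hT u, ?_⟩
    show sgn O (Tt p u).left = -1
    rw [hTl]
    unfold sgn
    rw [FreeGroup.lift_apply_of, if_pos hu]
  · intro u hu
    refine ⟨hT u, ?_⟩
    show sgn O (Tt p u).left = 1
    rw [hTl]
    unfold sgn
    rw [FreeGroup.lift_apply_of, if_neg hu]

end Chr

section Rel

variable {A H ι : Type} [Group H] (p : FreeGroup A →* H) (r s : ι → FreeGroup A)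
  (u w : ℕ → FreeGroup A)

/-- The sets of the relations. -/
def Zs (j : ℕ) : Set (KK p) :=
  Set.range (fun i => wa p (r i)) ∪ Set.range (fun i => wb p (s i)) ∪
    {x | ∃ i ≤ j, x = Tt p (w i)}

/-- Double cosets. -/
def Dc (g h : FreeGroup A) : Prop :=
  ∃ ρ ∈ Subgroup.closure (Set.range r), ∃ σ ∈ Subgroup.closure (Set.range s),
    p g = p (ρ * h * σ)

variable {p r s u w}

theorem relT_comm {G : Type} [Group G] {g : KK p} {j : ℕ} {f : KK p →* G} {k : G}
    (h : RelT (Zs p r s w j) g j f k) {ρ σ : FreeGroup A} (hρ : ρ ∈ Subgroup.closure (Set.range r))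
    (hσ : σ ∈ Subgroup.closure (Set.range s)) : Commute k (f (wa p ρ * wb p σ⁻¹)) := by
  have h1 : Commute k (f (wa p ρ)) := by
    induction hρ using Subgroup.closure_induction with
    | mem x hx =>
      obtain ⟨i, rfl⟩ := hx
      exact h.com _ (Or.inl (Or.inl ⟨i, rfl⟩))
    | one => rw [map_one, map_one]; exact Commute.one_right _
    | mul x y _ _ hx hy => rw [map_mul, map_mul]; exact hx.mul_right hy
    | inv x _ hx => rw [map_inv, map_inv]; exact hx.inv_right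
  have h2 : Commute k (f (wb p σ)) := by
    induction hσ using Subgroup.closure_induction with
    | mem x hx =>
      obtain ⟨i, rfl⟩ := hx
      exact h.com _ (Or.inl (Or.inr ⟨i, rfl⟩))
    | one => rw [map_one, map_one]; exact Commute.one_right _
    | mul x y _ _ hx hy => rw [map_mul, map_mul]; exact hx.mul_right hy
    | inv x _ hx => rw [map_inv, map_inv]; exact hx.inv_right
  rw [map_mul, map_inv, map_inv]
  exact h1.mul_right h2.inv_right

/-- `k_j` dies. -/
theorem relT_one {G : Type} [Group G] {g : FreeGroup A} {j i : ℕ} {f : KK p →* G} {k : G}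
    (h : RelT (Zs p r s w j) (Tt p g) j f k) (hi : i ≤ j) (hd : Dc p r s g (w i)) : k = 1 := by
  obtain ⟨ρ, hρ, σ, hσ, e⟩ := hd
  have h1 := relT_comm h hρ hσ
  have h2 : Commute k (f (Tt p (w i))) := h.com _ (Or.inr ⟨i, hi, rfl⟩)
  have h3 : Commute k (f (Tt p g)) := by
    rw [Tt_dbl p g (w i) ρ σ e, map_mul f, map_mul f, map_inv f]
    exact (h1.mul_right h2).mul_right h1.inv_right
  have h4 := h.inv
  rw [← h3.eq, mul_inv_cancel_right] at h4
  have h5 : k ^ 2 = 1 := by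
    rw [pow_two]
    nth_rewrite 2 [h4]
    exact mul_inv_cancel k
  have h6 : orderOf k ∣ Nat.gcd 2 (3 ^ (j + 1)) :=
    Nat.dvd_gcd (orderOf_dvd_of_pow_eq_one h5) (orderOf_dvd_of_pow_eq_one h.ord)
  have h7 : Nat.gcd 2 (3 ^ (j + 1)) = 1 := Nat.Coprime.pow_right _ (by norm_num)
  rw [h7, Nat.dvd_one] at h6
  exact orderOf_eq_one_iff.1 h6

theorem relT_congr {G : Type} [Group G] {g g' : FreeGroup A} {j : ℕ} {f : KK p →* G} {k : G}
    (h : RelT (Zs p r s w j) (Tt p g) j f k) (hd : Dc p r s g g') :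
    RelT (Zs p r s w j) (Tt p g') j f k := by
  obtain ⟨ρ, hρ, σ, hσ, e⟩ := hd
  have h1 := relT_comm h hρ hσ
  refine ⟨h.ord, h.com, ?_⟩
  have h2 := h.inv
  rw [Tt_dbl p g g' ρ σ e, map_mul f, map_mul f, map_inv f] at h2
  generalize f (wa p ρ * wb p σ⁻¹) = γ at h1 h2
  generalize f (Tt p g') = t at h2 ⊢
  have h3 : γ * (t * k * t⁻¹) * γ⁻¹ = k⁻¹ := by
    rw [← h2]
    have := h1.eq
    calc γ * (t * k * t⁻¹) * γ⁻¹ = γ * t * γ⁻¹ * (γ * k) * t⁻¹ * γ⁻¹ := by group
      _ = γ * t * γ⁻¹ * (k * γ) * t⁻¹ * γ⁻¹ := by rw [this]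
      _ = γ * t * γ⁻¹ * k * (γ * t * γ⁻¹)⁻¹ := by group
  have h4 : t * k * t⁻¹ = γ⁻¹ * k⁻¹ * γ := by
    rw [← h3]; group
  rw [h4]
  have := h1.inv_inv.eq
  rw [← this]
  group

theorem Dc.symm {g h : FreeGroup A} (H' : Dc p r s g h) : Dc p r s h g := by
  obtain ⟨ρ, hρ, σ, hσ, e⟩ := H'
  refine ⟨ρ⁻¹, inv_mem hρ, σ⁻¹, inv_mem hσ, ?_⟩
  simp only [map_mul, map_inv] at e ⊢
  rw [e]
  group

theorem Dc.trans {g h k : FreeGroup A} (H' : Dc p r s g h) (H'' : Dc p r s h k) :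
    Dc p r s g k := by
  obtain ⟨ρ, hρ, σ, hσ, e⟩ := H'
  obtain ⟨ρ', hρ', σ', hσ', e'⟩ := H''
  refine ⟨ρ * ρ', mul_mem hρ hρ', σ' * σ, mul_mem hσ' hσ, ?_⟩
  simp only [map_mul] at e e' ⊢
  rw [e, e']
  group

theorem relT_triv {G : Type} [Group G] (g : KK p) (j : ℕ) (f : KK p →* G) (Z : Set (KK p)) :
    RelT Z g j f 1 where
  ord := one_pow _
  com := fun _ _ => Commute.one_left _
  inv := by rw [mul_one, mul_inv_cancel, inv_one]

/-- Replacing `g` by an element of the same double coset. -/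
theorem tower_congr {g g' : FreeGroup A} {m : ℕ} {B : Type} [Group B] {ι : KK p →* B} {k : ℕ → B}
    (T : Tower (Zs p r s w) (Tt p g) m B ι k) (hd : Dc p r s g g') :
    Tower (Zs p r s w) (Tt p g') m B ι k where
  inj := T.inj
  rel := fun j hj => relT_congr (T.rel j hj) hd
  lift := fun G _ f k' h => T.lift G f k' (fun j hj => relT_congr (h j hj) hd.symm)
  ext := T.ext
  exp := T.exp
  ord := T.ord

/-- Existence of the tower. -/
theorem tower_exists (g : FreeGroup A) (m : ℕ) (hm : ∀ i < m, ¬ Dc p r s g (w i)) :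
    ∃ (B : Type) (_ : Group B) (ι : KK p →* B) (k : ℕ → B),
      Tower (Zs p r s w) (Tt p g) m B ι k := by
  let O : Set H := {h | ∃ ρ ∈ Subgroup.closure (Set.range r), ∃ σ ∈ Subgroup.closure (Set.range s),
    h = p ρ * p g * p σ}
  have h1 : ∀ i h, p (r i) * h ∈ O ↔ h ∈ O := by
    intro i h
    constructor
    · rintro ⟨ρ, hρ, σ, hσ, e⟩
      refine ⟨(r i)⁻¹ * ρ, mul_mem (inv_mem (Subgroup.subset_closure ⟨i, rfl⟩)) hρ, σ, hσ, ?_⟩
      rw [map_mul, map_inv, mul_assoc, mul_assoc, ← mul_assoc (p ρ), ← e]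
      group
    · rintro ⟨ρ, hρ, σ, hσ, rfl⟩
      refine ⟨r i * ρ, mul_mem (Subgroup.subset_closure ⟨i, rfl⟩) hρ, σ, hσ, ?_⟩
      rw [map_mul]
      group
  have h2 : ∀ i h, h * (p (s i))⁻¹ ∈ O ↔ h ∈ O := by
    intro i h
    constructor
    · rintro ⟨ρ, hρ, σ, hσ, e⟩
      refine ⟨ρ, hρ, σ * s i, mul_mem hσ (Subgroup.subset_closure ⟨i, rfl⟩), ?_⟩
      rw [map_mul, ← mul_assoc, ← e]
      group
    · rintro ⟨ρ, hρ, σ, hσ, rfl⟩
      refine ⟨ρ, hρ, σ * (s i)⁻¹, mul_mem hσ (inv_mem (Subgroup.subset_closure ⟨i, rfl⟩)), ?_⟩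
      rw [map_mul, map_inv]
      group
  obtain ⟨M, χ, hr, hs, hO, hO'⟩ := exists_chr (r := r) (s := s) h1 h2
  refine tower (Zs p r s w) (Tt p g) (KK_tf p) M χ (hO g ⟨1, one_mem _, 1, one_mem _, by simp⟩) m ?_
  rintro j hj z ((⟨i, rfl⟩ | ⟨i, rfl⟩) | ⟨i, hi, rfl⟩)
  · exact hr i
  · exact hs i
  · refine hO' _ ?_
    rintro ⟨ρ, hρ, σ, hσ, e⟩
    refine hm i (lt_of_le_of_lt hi hj) ⟨ρ⁻¹, inv_mem hρ, σ⁻¹, inv_mem hσ, ?_⟩
    simp only [map_mul, map_inv]
    rw [e]
    group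

/-- The torsion determines the height. -/
theorem tower_height {g g' : FreeGroup A} {m m' : ℕ} {B B' : Type} [Group B] [Group B']
    {ι : KK p →* B} {k : ℕ → B} {ι' : KK p →* B'} {k' : ℕ → B'}
    (T : Tower (Zs p r s w) (Tt p g) m B ι k) (T' : Tower (Zs p r s w) (Tt p g') m' B' ι' k')
    (e : B ≃* B') : m = m' := by
  have key : ∀ {g g' : FreeGroup A} {m m' : ℕ} {B B' : Type} [Group B] [Group B']
      {ι : KK p →* B} {k : ℕ → B} {ι' : KK p →* B'} {k' : ℕ → B'}
      (_ : Tower (Zs p r s w) (Tt p g) m B ι k) (_ : Tower (Zs p r s w) (Tt p g') m' B' ι' k')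
      (_ : B ≃* B'), ¬ m < m' := by
    intro g g' m m' B B' _ _ ι k ι' k' T T' e hlt
    obtain ⟨l, rfl⟩ := Nat.exists_eq_succ_of_ne_zero (Nat.ne_of_gt (lt_of_le_of_lt (Nat.zero_le _) hlt))
    have h1 := T'.ord l (Nat.lt_succ_self l)
    set x := e.symm (k' l) with hx
    have h2 : orderOf x = 3 ^ (l + 1) := by
      rw [hx, ← h1]
      exact orderOf_injective e.symm.toMonoidHom e.symm.injective _
    have h3 : x ^ 3 ^ m = 1 := T.exp x (3 ^ (l + 1)) (by positivity) (by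
      rw [← h2]; exact pow_orderOf_eq_one x)
    have h4 : 3 ^ (l + 1) ∣ 3 ^ m := by
      rw [← h2]; exact orderOf_dvd_of_pow_eq_one h3
    have h5 := (Nat.pow_dvd_pow_iff_le_right (by norm_num)).1 h4
    have h6 : m < l + 1 := hlt
    omega
  rcases lt_trichotomy m m' with h | h | h
  · exact absurd h (key T T' e)
  · exact h
  · exact absurd h (key T' T e.symm)

end Rel

end Pool.Agent.Q223.IS
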