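import Pool.Agent.Q223.IS.Asm

set_option autoImplicit false
set_option linter.unusedSectionVars false

/-!
# Codes of the presentations
-/

namespace Pool.Agent.Q223.IS

/-- Words. -/
abbrev Wd : Type := List (ℕ × Bool)

/-- The relators of a code. -/
def relSet (a : ℕ × List Wd) : Set (FreeGroup (Fin a.1)) :=
  {g : FreeGroup (Fin a.1) | ∃ w ∈ a.2, g = FreeGroup.mk
    (w.filterMap (fun q => if h : q.1 < a.1 then some ((⟨q.1, h⟩ : Fin a.1), q.2) else none))}

/-- The group of a code. -/
abbrev PG (a : ℕ × List Wd) : Type := PresentedGroup (relSet a)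

/-- The generators. -/
def gen (a : ℕ × List Wd) (i : ℕ) : PG a :=
  if h : i < a.1 then PresentedGroup.of ⟨i, h⟩ else 1

/-- The value of a word. -/
def ev {M : Type} [Group M] (x : ℕ → M) (w : Wd) : M := FreeGroup.lift x (FreeGroup.mk w)

section Ev

variable {M : Type} [Group M] (x : ℕ → M)

theorem ev_nil : ev x [] = 1 := by
  unfold ev
  rw [← FreeGroup.one_eq_mk, map_one]

theorem ev_append (u v : Wd) : ev x (u ++ v) = ev x u * ev x v := by
  unfold ev
  rw [← FreeGroup.mul_mk, map_mul]

theorem ev_inv (u : Wd) : ev x (FreeGroup.invRev u) = (ev x u)⁻¹ := by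
  unfold ev
  rw [← FreeGroup.inv_mk, map_inv]

theorem ev_true (i : ℕ) : ev x [(i, true)] = x i := by
  unfold ev
  exact FreeGroup.lift_apply_of ..

theorem ev_cons (q : ℕ × Bool) (u : Wd) : ev x (q :: u) = ev x [q] * ev x u :=
  ev_append x [q] u

theorem ev_map {M' : Type} [Group M'] (F : M →* M') (u : Wd) :
    F (ev x u) = ev (fun i => F (x i)) u := by
  unfold ev
  have : F.comp (FreeGroup.lift x) = FreeGroup.lift (fun i => F (x i)) := by
    apply FreeGroup.ext_hom
    intro i
    rw [MonoidHom.comp_apply, FreeGroup.lift_apply_of, FreeGroup.lift_apply_of]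
  exact DFunLike.congr_fun this _

/-- The commutator word. -/
def cmw (u v : Wd) : Wd := u ++ v ++ FreeGroup.invRev u ++ FreeGroup.invRev v

theorem ev_cmw (u v : Wd) : ev x (cmw u v) = 1 ↔ Commute (ev x u) (ev x v) := by
  unfold cmw
  rw [ev_append, ev_append, ev_append, ev_inv, ev_inv]
  exact cm_eq

/-- Repetition. -/
def rp (n : ℕ) (u : Wd) : Wd := (List.range n).flatMap (fun _ => u)

theorem ev_rp (n : ℕ) (u : Wd) : ev x (rp n u) = ev x u ^ n := by
  induction n with
  | zero =>
    rw [pow_zero]
    exact ev_nil x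
  | succ n ih =>
    have : rp (n + 1) u = rp n u ++ u := by
      unfold rp
      rw [List.range_succ, List.flatMap_append]
      simp
    rw [this, ev_append, ih, pow_succ]

/-- Words of conjugates. -/
def tw (τ : ℕ) (U V : Wd) (n : ℕ) : Wd :=
  (rp n U ++ V) ++ [(τ, true)] ++ FreeGroup.invRev (rp n U ++ V)

theorem ev_tw (τ : ℕ) (U V : Wd) (n : ℕ) :
    ev x (tw τ U V n) = (ev x U ^ n * ev x V) * x τ * (ev x U ^ n * ev x V)⁻¹ := by
  unfold tw
  rw [ev_append, ev_append, ev_inv, ev_append, ev_rp, ev_true]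

theorem ev_cut {N : ℕ} (y : Fin N → M) (w : Wd) :
    FreeGroup.lift y (FreeGroup.mk (w.filterMap
      (fun q => if h : q.1 < N then some ((⟨q.1, h⟩ : Fin N), q.2) else none))) =
      ev (fun i => if h : i < N then y ⟨i, h⟩ else 1) w := by
  induction w with
  | nil => rfl
  | cons q w ih =>
    rw [ev_cons, ← ih, List.filterMap_cons]
    by_cases h : q.1 < N
    · rw [dif_pos h]
      simp only
      rw [← List.singleton_append, ← FreeGroup.mul_mk, map_mul]
      congr 1
      unfold ev
      obtain ⟨i, b⟩ := q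
      have h' : i < N := h
      cases b
      · simp [h']
      · simp [h']
    · rw [dif_neg h]
      simp only
      have : ev (fun i => if h : i < N then y ⟨i, h⟩ else 1) [q] = 1 := by
        unfold ev
        obtain ⟨i, b⟩ := q
        have h' : ¬ i < N := h
        cases b
        · simp [h']
        · simp [h']
      rw [this, one_mul]

end Ev

section PGs

variable (a : ℕ × List Wd)

theorem gen_big {i : ℕ} (h : a.1 ≤ i) : gen a i = 1 := dif_neg (not_lt.2 h)

theorem PG_rel {w : Wd} (hw : w ∈ a.2) : ev (gen a) w = 1 := by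
  have h1 := ev_cut (fun i : Fin a.1 => (PresentedGroup.of i : PG a)) w
  unfold gen
  rw [← h1]
  have h2 : FreeGroup.lift (fun i : Fin a.1 => (PresentedGroup.of i : PG a)) =
      PresentedGroup.mk (relSet a) := by
    apply FreeGroup.ext_hom
    intro i
    rw [FreeGroup.lift_apply_of]
    rfl
  rw [h2]
  exact PresentedGroup.one_of_mem ⟨w, hw, rfl⟩

theorem PG_lift {M : Type} [Group M] (x : ℕ → M) (hx : ∀ i, a.1 ≤ i → x i = 1)
    (hr : ∀ w ∈ a.2, ev x w = 1) : ∃ F : PG a →* M, ∀ i, F (gen a i) = x i := by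
  refine ⟨PresentedGroup.toGroup (f := fun i : Fin a.1 => x i) ?_, ?_⟩
  · rintro g ⟨w, hw, rfl⟩
    rw [ev_cut]
    have : (fun i => if h : i < a.1 then (fun i : Fin a.1 => x i) ⟨i, h⟩ else 1) = x := by
      funext i
      by_cases h : i < a.1
      · rw [dif_pos h]
      · rw [dif_neg h, hx i (not_lt.1 h)]
    rw [this]
    exact hr w hw
  · intro i
    unfold gen
    by_cases h : i < a.1
    · rw [dif_pos h, PresentedGroup.toGroup.of]
    · rw [dif_neg h, map_one, hx i (not_lt.1 h)]

theorem PG_ext {M : Type} [Group M] {F F' : PG a →* M} (h : ∀ i, F (gen a i) = F' (gen a i)) :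
    F = F' := by
  apply PresentedGroup.ext
  intro i
  have := h i.1
  unfold gen at this
  rw [dif_pos i.2] at this
  exact this

end PGs

/-! ### The codes -/

section Cod

/-- The relators of `k_j`. -/
def relsJ (a : ℕ) (RS : List Wd) (U V U' V' : Wd) (n j : ℕ) : List Wd :=
  rp (3 ^ (j + 1)) [(a + a + 1 + j, true)] ::
    (tw (a + a) U V n ++ [(a + a + 1 + j, true)] ++ FreeGroup.invRev (tw (a + a) U V n) ++
      [(a + a + 1 + j, true)]) ::
    (RS.map (fun v => cmw [(a + a + 1 + j, true)] v) ++
      (List.range (j + 1)).map (fun i => cmw [(a + a + 1 + j, true)] (tw (a + a) U' V' i)))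

/-- The code. -/
def fcode (a : ℕ) (R0 RS : List Wd) (U V U' V' : Wd) (n : ℕ) : ℕ × List Wd :=
  (a + a + 1 + n, R0 ++ (List.range n).flatMap (relsJ a RS U V U' V' n))

theorem invRev_pr : Primrec (FreeGroup.invRev : Wd → Wd) := by
  unfold FreeGroup.invRev
  apply Primrec.list_reverse.comp
  apply Primrec.list_map Primrec.id
  exact Primrec.pair (Primrec.fst.comp Primrec.snd)
    (Primrec.not.comp (Primrec.snd.comp Primrec.snd))

theorem rp_pr {α : Type} [Primcodable α] {f : α → ℕ} {g : α → Wd} (hf : Primrec f)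
    (hg : Primrec g) : Primrec fun x => rp (f x) (g x) :=
  Primrec.list_flatMap (Primrec.list_range.comp hf) (hg.comp Primrec.fst).to₂

theorem pow3_pr {α : Type} [Primcodable α] {f : α → ℕ} (hf : Primrec f) :
    Primrec fun x => 3 ^ f x := by
  have h : Primrec fun x => (fun y : ℕ => 3 * y)^[f x] 1 :=
    Primrec.nat_iterate hf (Primrec.const 1)
      (Primrec.nat_mul.comp (Primrec.const 3) Primrec.snd).to₂
  refine h.of_eq ?_
  intro x
  induction f x with
  | zero => rfl
  | succ n ih => rw [Function.iterate_succ_apply', ih, pow_succ']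

theorem tw_pr {α : Type} [Primcodable α] (τ : ℕ) (U V : Wd) {f : α → ℕ} (hf : Primrec f) :
    Primrec fun x => tw τ U V (f x) := by
  have h1 : Primrec fun x => rp (f x) U ++ V :=
    Primrec.list_append.comp (rp_pr hf (Primrec.const U)) (Primrec.const V)
  exact Primrec.list_append.comp (Primrec.list_append.comp h1 (Primrec.const _))
    (invRev_pr.comp h1)

theorem cmw_pr {α : Type} [Primcodable α] {f g : α → Wd} (hf : Primrec f) (hg : Primrec g) :
    Primrec fun x => cmw (f x) (g x) :=
  Primrec.list_append.comp (Primrec.list_append.comp (Primrec.list_append.comp hf hg)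
    (invRev_pr.comp hf)) (invRev_pr.comp hg)

theorem lt_pr {α : Type} [Primcodable α] {f : α → ℕ} (hf : Primrec f) :
    Primrec fun x => ([(f x, true)] : Wd) :=
  Primrec.list_cons.comp (Primrec.pair hf (Primrec.const true)) (Primrec.const [])

theorem fcode_comp (a : ℕ) (R0 RS : List Wd) (U V U' V' : Wd) :
    Computable (fcode a R0 RS U V U' V') := by
  have hk : Primrec fun x : ℕ × ℕ => a + a + 1 + x.2 :=
    Primrec.nat_add.comp (Primrec.const _) Primrec.snd
  have hK : Primrec fun x : ℕ × ℕ => ([(a + a + 1 + x.2, true)] : Wd) := lt_pr hk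
  have hJ : Primrec₂ (relsJ a RS U V U' V') := by
    have h1 : Primrec fun x : ℕ × ℕ => rp (3 ^ (x.2 + 1)) [(a + a + 1 + x.2, true)] :=
      rp_pr (pow3_pr (Primrec.succ.comp Primrec.snd)) hK
    have ht : Primrec fun x : ℕ × ℕ => tw (a + a) U V x.1 := tw_pr _ U V Primrec.fst
    have h2 : Primrec fun x : ℕ × ℕ => tw (a + a) U V x.1 ++ [(a + a + 1 + x.2, true)] ++
        FreeGroup.invRev (tw (a + a) U V x.1) ++ [(a + a + 1 + x.2, true)] :=
      Primrec.list_append.comp (Primrec.list_append.comp (Primrec.list_append.comp ht hK)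
        (invRev_pr.comp ht)) hK
    have h3 : Primrec fun x : ℕ × ℕ => RS.map (fun v => cmw [(a + a + 1 + x.2, true)] v) :=
      Primrec.list_map (Primrec.const RS) (cmw_pr (hK.comp Primrec.fst) Primrec.snd).to₂
    have h4 : Primrec fun x : ℕ × ℕ => (List.range (x.2 + 1)).map
        (fun i => cmw [(a + a + 1 + x.2, true)] (tw (a + a) U' V' i)) :=
      Primrec.list_map (Primrec.list_range.comp (Primrec.succ.comp Primrec.snd))
        (cmw_pr (hK.comp Primrec.fst) (tw_pr _ U' V' Primrec.snd)).to₂
    exact Primrec.list_cons.comp h1 (Primrec.list_cons.comp h2 (Primrec.list_append.comp h3 h4))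
  apply Primrec.to_comp
  refine Primrec.pair (Primrec.nat_add.comp (Primrec.const _) Primrec.id) ?_
  refine Primrec.list_append.comp (Primrec.const _) ?_
  exact Primrec.list_flatMap Primrec.list_range hJ

end Cod

end Pool.Agent.Q223.IS
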