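import Mathlib

set_option autoImplicit false
set_option linter.unusedSectionVars false

/-!
# Affine rules and double cosets

A finite system of affine rules on `P × ℤ^J` is encoded in double cosets of a finitely presented
group.
-/

namespace Pool.Agent.Q223.IS

/-- An affine rule: it joins `(src, a + μ z)` to `(tgt, b + μ z)` for all `z`. -/
structure Rl (P J : Type) where
  src : P
  tgt : P
  μ : (J → ℤ) →+ (J → ℤ)
  a : J → ℤ
  b : J → ℤ

/-- One step. -/
inductive Step {P J ι : Type} (D : ι → Rl P J) : P × (J → ℤ) → P × (J → ℤ) → Prop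
  | mk (i : ι) (z : J → ℤ) :
      Step D ((D i).src, (D i).a + (D i).μ z) ((D i).tgt, (D i).b + (D i).μ z)

/-- A set of configurations closed under the rules. -/
def Closed {P J ι : Type} (D : ι → Rl P J) (C : P → (J → ℤ) → Prop) : Prop :=
  ∀ i z, C (D i).src ((D i).a + (D i).μ z) ↔ C (D i).tgt ((D i).b + (D i).μ z)

/-! ### Products of powers of commuting elements -/

section Xw

variable {J M : Type} [Fintype J] [Group M]

/-- The product of the `x c ^ v c`. -/
noncomputable def Xw (x : J → M) (v : J → ℤ) : M :=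
  ((Finset.univ : Finset J).toList.map fun c => x c ^ v c).prod

theorem map_Xw {M' : Type} [Group M'] (f : M →* M') (x : J → M) (v : J → ℤ) :
    f (Xw x v) = Xw (fun c => f (x c)) v := by
  unfold Xw
  rw [map_list_prod, List.map_map]
  congr 1
  apply List.map_congr_left
  intro c _
  simp

theorem list_comm (x : J → M) (hx : ∀ c d, Commute (x c) (x d)) (v : J → ℤ) (c : J) (k : ℤ)
    (l : List J) : Commute (x c ^ k) ((l.map fun c => x c ^ v c).prod) := by
  induction l with
  | nil => simp
  | cons d l ih =>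
    rw [List.map_cons, List.prod_cons]
    exact Commute.mul_right ((hx c d).zpow_zpow _ _) ih

theorem list_add (x : J → M) (hx : ∀ c d, Commute (x c) (x d)) (v w : J → ℤ) (l : List J) :
    (l.map fun c => x c ^ (v + w) c).prod =
      (l.map fun c => x c ^ v c).prod * (l.map fun c => x c ^ w c).prod := by
  induction l with
  | nil => simp
  | cons d l ih =>
    simp only [List.map_cons, List.prod_cons]
    rw [ih, Pi.add_apply, zpow_add]
    have h := list_comm x hx v d (w d) l
    calc x d ^ v d * x d ^ w d * ((l.map fun c => x c ^ v c).prod * (l.map fun c => x c ^ w c).prod)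
        = x d ^ v d * (x d ^ w d * (l.map fun c => x c ^ v c).prod) *
          (l.map fun c => x c ^ w c).prod := by group
      _ = x d ^ v d * ((l.map fun c => x c ^ v c).prod * x d ^ w d) *
          (l.map fun c => x c ^ w c).prod := by rw [h.eq]
      _ = _ := by group

theorem Xw_add (x : J → M) (hx : ∀ c d, Commute (x c) (x d)) (v w : J → ℤ) :
    Xw x (v + w) = Xw x v * Xw x w := list_add x hx v w _

theorem Xw_zero (x : J → M) : Xw x 0 = 1 := by
  unfold Xw
  apply List.prod_eq_one
  intro y hy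
  rw [List.mem_map] at hy
  obtain ⟨c, _, rfl⟩ := hy
  simp

theorem Xw_nsmul (x : J → M) (hx : ∀ c d, Commute (x c) (x d)) (v : J → ℤ) (n : ℕ) :
    Xw x (n • v) = Xw x v ^ n := by
  induction n with
  | zero => rw [zero_nsmul, Xw_zero, pow_zero]
  | succ n ih => rw [succ_nsmul, Xw_add x hx, ih, pow_succ]

theorem Xw_neg (x : J → M) (hx : ∀ c d, Commute (x c) (x d)) (v : J → ℤ) :
    Xw x (-v) = (Xw x v)⁻¹ := by
  rw [eq_inv_iff_mul_eq_one, ← Xw_add x hx, neg_add_cancel, Xw_zero]

theorem Xw_mult [DecidableEq J] (v : J → ℤ) :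
    Xw (fun c => Multiplicative.ofAdd (Pi.single c (1 : ℤ) : J → ℤ)) v =
      Multiplicative.ofAdd v := by
  unfold Xw
  rw [Finset.prod_map_toList]
  have : v = ∑ c, v c • (Pi.single c (1 : ℤ) : J → ℤ) := by
    conv_lhs => rw [← Finset.univ_sum_single v]
    apply Finset.sum_congr rfl
    intro c _
    rw [← Pi.single_smul]
    simp
  conv_rhs => rw [this]
  rw [ofAdd_sum]
  rfl

end Xw

/-! ### The group -/

section Grp

variable {P J ι : Type} [Fintype J] [DecidableEq J]

/-- The generators. -/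
abbrev Al (P J ι : Type) : Type := J ⊕ P ⊕ ι

variable (P J ι) in
/-- `x_c` -/
def gx (c : J) : FreeGroup (Al P J ι) := FreeGroup.of (Sum.inl c)

variable (J ι) in
/-- `t_p` -/
def gt (p : P) : FreeGroup (Al P J ι) := FreeGroup.of (Sum.inr (Sum.inl p))

variable (P J) in
/-- `r_i` -/
def gr (i : ι) : FreeGroup (Al P J ι) := FreeGroup.of (Sum.inr (Sum.inr i))

/-- The commutator. -/
def cm {G : Type} [Group G] (g h : G) : G := g * h * g⁻¹ * h⁻¹

theorem cm_eq {G : Type} [Group G] {g h : G} : cm g h = 1 ↔ Commute g h := by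
  unfold cm
  rw [mul_inv_eq_one, mul_inv_eq_iff_eq_mul]
  rfl

theorem map_cm {G G' : Type} [Group G] [Group G'] (f : G →* G') (g h : G) :
    f (cm g h) = cm (f g) (f h) := by
  simp [cm]

/-- The relators. -/
noncomputable def rel (D : ι → Rl P J) : (J × J) ⊕ (ι × J) → FreeGroup (Al P J ι)
  | Sum.inl (c, d) => cm (gx P J ι c) (gx P J ι d)
  | Sum.inr (i, c) => cm (gr P J i) (Xw (gx P J ι) ((D i).μ (Pi.single c 1)))

/-- `s_i` -/
noncomputable def gs (D : ι → Rl P J) (i : ι) : FreeGroup (Al P J ι) :=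
  (gt J ι (D i).tgt)⁻¹ * (Xw (gx P J ι) (D i).b)⁻¹ * gr P J i * Xw (gx P J ι) (D i).a *
    gt J ι (D i).src

/-- The word of a configuration. -/
noncomputable def gw (ι : Type) {P J : Type} [Fintype J] (c : P × (J → ℤ)) :
    FreeGroup (Al P J ι) :=
  Xw (gx P J ι) c.2 * gt J ι c.1

variable (D : ι → Rl P J)

/-- The projection to the finitely presented group. -/
noncomputable abbrev pj : FreeGroup (Al P J ι) →* PresentedGroup (Set.range (rel D)) :=
  PresentedGroup.mk _

theorem pj_rel (k) : pj D (rel D k) = 1 :=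
  PresentedGroup.one_of_mem ⟨k, rfl⟩

theorem pj_xx (c d : J) : Commute (pj D (gx P J ι c)) (pj D (gx P J ι d)) := by
  have h := pj_rel D (Sum.inl (c, d))
  rw [rel, map_cm, cm_eq] at h
  exact h

theorem pj_rx (i : ι) (z : J → ℤ) :
    Commute (pj D (gr P J i)) (pj D (Xw (gx P J ι) ((D i).μ z))) := by
  let S : AddSubgroup (J → ℤ) :=
    { carrier := {z | Commute (pj D (gr P J i)) (pj D (Xw (gx P J ι) ((D i).μ z)))}
      zero_mem' := by
        show Commute _ _
        rw [map_zero, Xw_zero, map_one]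
        exact Commute.one_right _
      add_mem' := by
        intro z w hz hw
        show Commute _ _
        have hz' : Commute _ _ := hz
        have hw' : Commute _ _ := hw
        rw [map_add, map_Xw, Xw_add _ (pj_xx D), ← map_Xw, ← map_Xw]
        exact hz'.mul_right hw'
      neg_mem' := by
        intro z hz
        show Commute _ _
        have hz' : Commute _ _ := hz
        rw [map_neg, map_Xw, Xw_neg _ (pj_xx D), ← map_Xw]
        exact hz'.inv_right }
  have hS : ∀ c, (Pi.single c (1 : ℤ) : J → ℤ) ∈ S := by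
    intro c
    show Commute _ _
    have h := pj_rel D (Sum.inr (i, c))
    rw [rel, map_cm, cm_eq] at h
    exact h
  have hz : z ∈ S := by
    have : z = ∑ c, z c • (Pi.single c (1 : ℤ) : J → ℤ) := by
      conv_lhs => rw [← Finset.univ_sum_single z]
      apply Finset.sum_congr rfl
      intro c _
      rw [← Pi.single_smul]
      simp
    rw [this]
    exact sum_mem fun c _ => zsmul_mem (hS c) _
  exact hz

/-- Being in the same double coset. -/
def Dbl (D : ι → Rl P J) (g h : FreeGroup (Al P J ι)) : Prop :=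
  ∃ ρ ∈ Subgroup.closure (Set.range (gr P J : ι → FreeGroup (Al P J ι))),
    ∃ σ ∈ Subgroup.closure (Set.range (gs D)), pj D g = pj D (ρ * h * σ)

theorem Dbl.refl (g) : Dbl D g g := ⟨1, one_mem _, 1, one_mem _, by simp⟩

theorem Dbl.symm {g h} (H : Dbl D g h) : Dbl D h g := by
  obtain ⟨ρ, hρ, σ, hσ, e⟩ := H
  refine ⟨ρ⁻¹, inv_mem hρ, σ⁻¹, inv_mem hσ, ?_⟩
  simp only [map_mul, map_inv] at e ⊢
  rw [e]
  group

theorem Dbl.trans {g h k} (H : Dbl D g h) (H' : Dbl D h k) : Dbl D g k := by
  obtain ⟨ρ, hρ, σ, hσ, e⟩ := H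
  obtain ⟨ρ', hρ', σ', hσ', e'⟩ := H'
  refine ⟨ρ * ρ', mul_mem hρ hρ', σ' * σ, mul_mem hσ' hσ, ?_⟩
  simp only [map_mul] at e e' ⊢
  rw [e, e']
  group

/-- Completeness. -/
theorem dbl_step {c c' : P × (J → ℤ)} (h : Step D c c') : Dbl D (gw ι c) (gw ι c') := by
  obtain ⟨i, z⟩ := h
  refine ⟨(gr P J i)⁻¹, inv_mem (Subgroup.subset_closure ⟨i, rfl⟩), gs D i,
    Subgroup.subset_closure ⟨i, rfl⟩, ?_⟩
  have h1 := pj_rx D i z
  unfold gw gs
  simp only [map_mul, map_inv, map_Xw] at h1 ⊢
  rw [Xw_add _ (pj_xx D), Xw_add _ (pj_xx D)]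
  have h2 : ∀ v w : J → ℤ, Commute (Xw (fun c => pj D (gx P J ι c)) v)
      (Xw (fun c => pj D (gx P J ι c)) w) := by
    intro v w
    show _ * _ = _ * _
    rw [← Xw_add _ (pj_xx D), ← Xw_add _ (pj_xx D), add_comm]
  have ha := h2 (D i).a ((D i).μ z)
  have hb := h2 (D i).b ((D i).μ z)
  generalize Xw (fun c => pj D (gx P J ι c)) ((D i).μ z) = u at *
  generalize Xw (fun c => pj D (gx P J ι c)) (D i).a = α at *
  generalize Xw (fun c => pj D (gx P J ι c)) (D i).b = β at *
  generalize pj D (gr P J i) = r at *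
  generalize pj D (gt J ι (D i).src) = ts at *
  generalize pj D (gt J ι (D i).tgt) = tt at *
  calc α * u * ts = u * α * ts := by rw [ha.eq]
    _ = r⁻¹ * (r * u) * α * ts := by group
    _ = r⁻¹ * (u * r) * α * ts := by rw [h1.eq]
    _ = r⁻¹ * (u * β) * β⁻¹ * r * α * ts := by group
    _ = r⁻¹ * (β * u) * β⁻¹ * r * α * ts := by rw [hb.eq]
    _ = r⁻¹ * (β * u * tt) * (tt⁻¹ * β⁻¹ * r * α * ts) := by group

theorem dbl_eqv {c c' : P × (J → ℤ)} (h : Relation.EqvGen (Step D) c c') :
    Dbl D (gw ι c) (gw ι c') := by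
  induction h with
  | rel c c' h => exact dbl_step D h
  | refl c => exact Dbl.refl D _
  | symm c c' _ ih => exact ih.symm
  | trans c c' c'' _ _ ih ih' => exact ih.trans D ih'

/-! ### The model -/

/-- The points of the model. -/
abbrev Pt (P J : Type) : Type := P × Bool × (J → ℤ)

/-- Translations. -/
def tau (P J : Type) : Multiplicative (J → ℤ) →* Equiv.Perm (Pt P J) where
  toFun v :=
    { toFun := fun x => (x.1, x.2.1, x.2.2 + v.toAdd)
      invFun := fun x => (x.1, x.2.1, x.2.2 - v.toAdd)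
      left_inv := by rintro ⟨p, β, u⟩; simp
      right_inv := by rintro ⟨p, β, u⟩; simp }
  map_one' := by
    ext x
    all_goals simp
  map_mul' v w := by
    apply Equiv.ext
    rintro ⟨p, β, u⟩
    show (p, β, u + (v * w).toAdd) = (p, β, u + w.toAdd + v.toAdd)
    rw [toAdd_mul, add_comm v.toAdd, add_assoc]

/-- The exchange of the two copies. -/
def qs (P J : Type) : Equiv.Perm (Pt P J) where
  toFun x := (x.1, !x.2.1, x.2.2)
  invFun x := (x.1, !x.2.1, x.2.2)
  left_inv := by rintro ⟨p, β, u⟩; simp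
  right_inv := by rintro ⟨p, β, u⟩; simp

open Classical in
/-- The involution of a rule. -/
noncomputable def ivf (R : Rl P J) (x : Pt P J) : Pt P J :=
  if x.2.1 = false ∧ x.1 = R.src ∧ x.2.2 - R.a ∈ R.μ.range then
    (R.tgt, true, x.2.2 - R.a + R.b)
  else if x.2.1 = true ∧ x.1 = R.tgt ∧ x.2.2 - R.b ∈ R.μ.range then
    (R.src, false, x.2.2 - R.b + R.a)
  else x

theorem ivf1 (R : Rl P J) {u : J → ℤ} (h : u - R.a ∈ R.μ.range) :
    ivf R (R.src, false, u) = (R.tgt, true, u - R.a + R.b) := by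
  simp [ivf, h]

theorem ivf2 (R : Rl P J) {u : J → ℤ} (h : u - R.b ∈ R.μ.range) :
    ivf R (R.tgt, true, u) = (R.src, false, u - R.b + R.a) := by
  simp [ivf, h]

theorem ivf3 (R : Rl P J) {p : P} {β : Bool} {u : J → ℤ}
    (h1 : ¬ (β = false ∧ p = R.src ∧ u - R.a ∈ R.μ.range))
    (h2 : ¬ (β = true ∧ p = R.tgt ∧ u - R.b ∈ R.μ.range)) :
    ivf R (p, β, u) = (p, β, u) := by
  unfold ivf
  rw [if_neg h1, if_neg h2]

theorem ivf_invol (R : Rl P J) : Function.Involutive (ivf R) := by
  rintro ⟨p, β, u⟩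
  by_cases h1 : β = false ∧ p = R.src ∧ u - R.a ∈ R.μ.range
  · obtain ⟨rfl, rfl, h⟩ := h1
    rw [ivf1 R h, ivf2 R (by simpa using h)]
    congr 2
    abel
  · by_cases h2 : β = true ∧ p = R.tgt ∧ u - R.b ∈ R.μ.range
    · obtain ⟨rfl, rfl, h⟩ := h2
      rw [ivf2 R h, ivf1 R (by simpa using h)]
      congr 2
      abel
    · rw [ivf3 R h1 h2, ivf3 R h1 h2]

/-- The involution of a rule as a permutation. -/
noncomputable def iv (R : Rl P J) : Equiv.Perm (Pt P J) := (ivf_invol R).toPerm

theorem iv_tau (R : Rl P J) (z : J → ℤ) :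
    Commute (iv R) (tau P J (Multiplicative.ofAdd (R.μ z))) := by
  apply Equiv.ext
  rintro ⟨p, β, u⟩
  show ivf R (p, β, u + R.μ z) = tau P J (Multiplicative.ofAdd (R.μ z)) (ivf R (p, β, u))
  have e : ∀ a : J → ℤ, u + R.μ z - a ∈ R.μ.range ↔ u - a ∈ R.μ.range := by
    intro a
    have : u + R.μ z - a = (u - a) + R.μ z := by abel
    rw [this]
    exact AddSubgroup.add_mem_cancel_right _ ⟨z, rfl⟩
  by_cases h1 : β = false ∧ p = R.src ∧ u - R.a ∈ R.μ.range
  · obtain ⟨rfl, rfl, h⟩ := h1
    rw [ivf1 R h, ivf1 R ((e _).2 h)]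
    show (_, _, _) = (R.tgt, true, u - R.a + R.b + R.μ z)
    congr 2
    abel
  · by_cases h2 : β = true ∧ p = R.tgt ∧ u - R.b ∈ R.μ.range
    · obtain ⟨rfl, rfl, h⟩ := h2
      rw [ivf2 R h, ivf2 R ((e _).2 h)]
      show (_, _, _) = (R.src, false, u - R.b + R.a + R.μ z)
      congr 2
      abel
    · rw [ivf3 R h1 h2, ivf3 R (by rw [e]; exact h1) (by rw [e]; exact h2)]
      rfl

theorem qs_tau (v) : Commute (qs P J) (tau P J v) := by
  apply Equiv.ext
  rintro ⟨p, β, u⟩
  rfl

theorem iv_src (R : Rl P J) (z : J → ℤ) :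
    iv R (R.src, false, R.a + R.μ z) = (R.tgt, true, R.b + R.μ z) := by
  show ivf R _ = _
  have h : R.a + R.μ z - R.a ∈ R.μ.range := ⟨z, by abel⟩
  unfold ivf
  rw [if_pos ⟨rfl, rfl, h⟩]
  congr 2
  simp only
  abel

/-- The model. -/
noncomputable def mdl [Inhabited P] : Al P J ι → Equiv.Perm (Pt P J)
  | Sum.inl c => tau P J (Multiplicative.ofAdd (Pi.single c 1))
  | Sum.inr (Sum.inl p) =>
      @Equiv.swap _ (Classical.decEq _) ((default, false, 0) : Pt P J) (p, false, 0)
  | Sum.inr (Sum.inr i) => qs P J * iv (D i)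

theorem lift_Xw [Inhabited P] (v : J → ℤ) :
    FreeGroup.lift (mdl D) (Xw (gx P J ι) v) = tau P J (Multiplicative.ofAdd v) := by
  rw [map_Xw]
  have : (fun c => FreeGroup.lift (mdl D) (gx P J ι c)) =
      fun c => tau P J (Multiplicative.ofAdd (Pi.single c 1)) := by
    funext c
    unfold gx
    rw [FreeGroup.lift_apply_of]
    rfl
  rw [this, ← map_Xw, Xw_mult]

theorem lift_rel [Inhabited P] (k) : FreeGroup.lift (mdl D) (rel D k) = 1 := by
  rcases k with ⟨c, d⟩ | ⟨i, c⟩
  · rw [rel, map_cm, cm_eq]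
    have : ∀ c, FreeGroup.lift (mdl D) (gx P J ι c) =
        tau P J (Multiplicative.ofAdd (Pi.single c 1)) := by
      intro c
      unfold gx
      rw [FreeGroup.lift_apply_of]
      rfl
    rw [this, this]
    exact (Commute.all (Multiplicative.ofAdd (Pi.single c (1 : ℤ) : J → ℤ))
      (Multiplicative.ofAdd (Pi.single d (1 : ℤ) : J → ℤ))).map (tau P J)
  · rw [rel, map_cm, cm_eq, lift_Xw]
    have : FreeGroup.lift (mdl D) (gr P J i) = qs P J * iv (D i) := by
      unfold gr
      rw [FreeGroup.lift_apply_of]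
      rfl
    rw [this]
    exact (qs_tau _).mul_left (iv_tau _ _)

/-- The action of the finitely presented group on the model. -/
noncomputable def actM [Inhabited P] :
    PresentedGroup (Set.range (rel D)) →* Equiv.Perm (Pt P J) :=
  PresentedGroup.toGroup (f := mdl D) (by
    rintro _ ⟨k, rfl⟩
    exact lift_rel D k)

theorem actM_pj [Inhabited P] (g : FreeGroup (Al P J ι)) :
    actM D (pj D g) = FreeGroup.lift (mdl D) g := rfl

/-- Soundness. -/
theorem dbl_sound {C : P → (J → ℤ) → Prop} (hC : Closed D C) {c c' : P × (J → ℤ)}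
    (h : Dbl D (gw ι c) (gw ι c')) : C c'.1 c'.2 → C c.1 c.2 := by
  intro hc'
  have : Inhabited P := ⟨c.1⟩
  obtain ⟨ρ, hρ, σ, hσ, e⟩ := h
  have e1 := congrArg (actM D) e
  rw [actM_pj, actM_pj] at e1
  have hX : ∀ c : P × (J → ℤ), FreeGroup.lift (mdl D) (gw ι c) (default, false, 0) =
      (c.1, false, c.2) := by
    intro c
    unfold gw
    rw [map_mul, lift_Xw, Equiv.Perm.mul_apply]
    have : FreeGroup.lift (mdl D) (gt J ι c.1) (default, false, 0) = (c.1, false, 0) := by
      unfold gt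
      rw [FreeGroup.lift_apply_of]
      exact @Equiv.swap_apply_left _ (Classical.decEq _) _ _
    rw [this]
    show (c.1, false, 0 + _) = _
    simp
  have hS : FreeGroup.lift (mdl D) σ (default, false, 0) = (default, false, 0) := by
    have : σ ∈ (MulAction.stabilizer (Equiv.Perm (Pt P J))
        ((default, false, 0) : Pt P J)).comap (FreeGroup.lift (mdl D)) := by
      refine (Subgroup.closure_le _).2 ?_ hσ
      rintro _ ⟨i, rfl⟩
      show FreeGroup.lift (mdl D) (gs D i) (default, false, 0) = (default, false, 0)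
      have h1 := hX ((D i).src, (D i).a)
      have h2 := hX ((D i).tgt, (D i).b)
      have h3 : FreeGroup.lift (mdl D) (gr P J i) ((D i).src, false, (D i).a) =
          ((D i).tgt, false, (D i).b) := by
        have : FreeGroup.lift (mdl D) (gr P J i) = qs P J * iv (D i) := by
          unfold gr
          rw [FreeGroup.lift_apply_of]
          rfl
        rw [this, Equiv.Perm.mul_apply]
        have h4 := iv_src (D i) 0
        rw [map_zero, add_zero, add_zero] at h4
        rw [h4]
        rfl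
      have h5 : gs D i = (gw ι ((D i).tgt, (D i).b))⁻¹ * gr P J i *
          gw ι ((D i).src, (D i).a) := by
        unfold gs gw
        group
      rw [h5, map_mul, map_mul, map_inv, Equiv.Perm.mul_apply, Equiv.Perm.mul_apply, h1, h3,
        Equiv.Perm.inv_eq_iff_eq, h2]
    exact this
  have hR : ∀ x : Pt P J, C x.1 x.2.2 → C (FreeGroup.lift (mdl D) ρ x).1
      (FreeGroup.lift (mdl D) ρ x).2.2 := by
    have hq : ∀ x : Pt P J, C (qs P J x).1 (qs P J x).2.2 ↔ C x.1 x.2.2 := fun x => Iff.rfl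
    have hi : ∀ i, ∀ x : Pt P J, C (iv (D i) x).1 (iv (D i) x).2.2 ↔ C x.1 x.2.2 := by
      intro i
      rintro ⟨p, β, u⟩
      show C (ivf (D i) (p, β, u)).1 (ivf (D i) (p, β, u)).2.2 ↔ C p u
      by_cases h1 : β = false ∧ p = (D i).src ∧ u - (D i).a ∈ (D i).μ.range
      · obtain ⟨rfl, rfl, h⟩ := h1
        rw [ivf1 (D i) h]
        obtain ⟨z, hz⟩ := h
        have := hC i z
        rw [hz] at this
        show C (D i).tgt (u - (D i).a + (D i).b) ↔ _
        rw [add_comm, ← this]
        simp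
      · by_cases h2 : β = true ∧ p = (D i).tgt ∧ u - (D i).b ∈ (D i).μ.range
        · obtain ⟨rfl, rfl, h⟩ := h2
          rw [ivf2 (D i) h]
          obtain ⟨z, hz⟩ := h
          have := hC i z
          rw [hz] at this
          show C (D i).src (u - (D i).b + (D i).a) ↔ _
          rw [add_comm, this]
          simp
        · rw [ivf3 (D i) h1 h2]
    let T : Subgroup (FreeGroup (Al P J ι)) :=
      { carrier := {g | ∀ x : Pt P J, C (FreeGroup.lift (mdl D) g x).1
          (FreeGroup.lift (mdl D) g x).2.2 ↔ C x.1 x.2.2}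
        one_mem' := by
          intro x
          rw [map_one]
          rfl
        mul_mem' := by
          intro g h hg hh x
          have hg' : ∀ x : Pt P J, C (FreeGroup.lift (mdl D) g x).1
            (FreeGroup.lift (mdl D) g x).2.2 ↔ C x.1 x.2.2 := hg
          have hh' : ∀ x : Pt P J, C (FreeGroup.lift (mdl D) h x).1
            (FreeGroup.lift (mdl D) h x).2.2 ↔ C x.1 x.2.2 := hh
          rw [map_mul, Equiv.Perm.mul_apply, hg', hh']
        inv_mem' := by
          intro g hg x
          have hg' : ∀ x : Pt P J, C (FreeGroup.lift (mdl D) g x).1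
            (FreeGroup.lift (mdl D) g x).2.2 ↔ C x.1 x.2.2 := hg
          have := hg' (FreeGroup.lift (mdl D) g⁻¹ x)
          rw [← this, ← Equiv.Perm.mul_apply, ← map_mul, mul_inv_cancel, map_one]
          rfl }
    have hT : ρ ∈ T := by
      refine (Subgroup.closure_le _).2 ?_ hρ
      rintro _ ⟨i, rfl⟩
      intro x
      have : FreeGroup.lift (mdl D) (gr P J i) = qs P J * iv (D i) := by
        unfold gr
        rw [FreeGroup.lift_apply_of]
        rfl
      rw [this, Equiv.Perm.mul_apply, hq, hi]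
    exact fun x hx => (hT x).2 hx
  have e2 := congrArg (fun f : Equiv.Perm (Pt P J) => f (default, false, 0)) e1
  simp only [map_mul, Equiv.Perm.mul_apply] at e2
  rw [hX, hS, hX] at e2
  have := hR (c'.1, false, c'.2) hc'
  rw [← e2] at this
  exact this

end Grp

end Pool.Agent.Q223.IS
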