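import Pool.Agent.Q223.IS.Code

set_option autoImplicit false
set_option linter.unusedSectionVars false

/-!
# The groups of the codes
-/

namespace Pool.Agent.Q223.IS

section

variable {A κ ι : Type} [Fintype A] [Fintype κ] [Fintype ι] {a : ℕ} (e : A ≃ Fin a)
  (rl : κ → FreeGroup A) (r s : ι → FreeGroup A) (g g' h h' : FreeGroup A)

/-- left words -/
def wA (v : FreeGroup A) : Wd := (FreeGroup.map (fun c => (e c : ℕ)) v).toWord

/-- right words -/
def wB (v : FreeGroup A) : Wd := (FreeGroup.map (fun c => a + (e c : ℕ)) v).toWord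

/-- The fixed relators. -/
noncomputable def R0 : List Wd :=
  (Finset.univ : Finset (A × A)).toList.map
    (fun c => cmw [((e c.1 : ℕ), true)] [(a + (e c.2 : ℕ), true)]) ++
  ((Finset.univ : Finset A).toList.map
    (fun c => cmw [(a + a, true)] [((e c : ℕ), true), (a + (e c : ℕ), true)]) ++
  (Finset.univ : Finset κ).toList.map (fun k => cmw [(a + a, true)] (wA e (rl k))))

/-- The words of the generators of `R'`. -/
noncomputable def RS : List Wd :=
  (Finset.univ : Finset ι).toList.map (fun i => wA e (r i)) ++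
  (Finset.univ : Finset ι).toList.map (fun i => wB e (s i))

/-- The code. -/
noncomputable def gcode : ℕ → ℕ × List Wd :=
  fcode a (R0 e rl) (RS e r s) (wA e g) (wA e g') (wA e h) (wA e h')

variable {e rl r s g g' h h'}

variable {M : Type} [Group M] {x : ℕ → M}

theorem ev_wA (v : FreeGroup A) : ev x (wA e v) = FreeGroup.lift (fun c => x (e c)) v := by
  unfold ev wA
  rw [FreeGroup.mk_toWord]
  have : (FreeGroup.lift x).comp (FreeGroup.map (fun c => (e c : ℕ))) =
      FreeGroup.lift (fun c => x (e c)) := by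
    apply FreeGroup.ext_hom
    intro c
    simp
  exact DFunLike.congr_fun this v

theorem ev_wB (v : FreeGroup A) : ev x (wB e v) = FreeGroup.lift (fun c => x (a + e c)) v := by
  unfold ev wB
  rw [FreeGroup.mk_toWord]
  have : (FreeGroup.lift x).comp (FreeGroup.map (fun c => a + (e c : ℕ))) =
      FreeGroup.lift (fun c => x (a + e c)) := by
    apply FreeGroup.ext_hom
    intro c
    simp
  exact DFunLike.congr_fun this v

/-- `Φ` is the homomorphism of `K` given by the assignment `x`. -/
structure Match (e : A ≃ Fin a) (rl : κ → FreeGroup A) (x : ℕ → M) (Φ : KK (pr rl) →* M) :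
    Prop where
  ha : ∀ c, Φ (ka _ c) = x (e c)
  hb : ∀ c, Φ (kb _ c) = x (a + e c)
  ht : Φ (kt _) = x (a + a)

variable {Φ : KK (pr rl) →* M}

theorem Match.wa (m : Match e rl x Φ) (v : FreeGroup A) : ev x (wA e v) = Φ (wa _ v) := by
  rw [ev_wA]
  have : FreeGroup.lift (fun c => x (e c)) = Φ.comp (IS.wa (pr rl)) := by
    apply FreeGroup.ext_hom
    intro c
    rw [FreeGroup.lift_apply_of, MonoidHom.comp_apply, wa_of, m.ha]
  exact DFunLike.congr_fun this v

theorem Match.wb (m : Match e rl x Φ) (v : FreeGroup A) : ev x (wB e v) = Φ (wb _ v) := by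
  rw [ev_wB]
  have : FreeGroup.lift (fun c => x (a + e c)) = Φ.comp (IS.wb (pr rl)) := by
    apply FreeGroup.ext_hom
    intro c
    rw [FreeGroup.lift_apply_of, MonoidHom.comp_apply, wb_of, m.hb]
  exact DFunLike.congr_fun this v

theorem Match.tw (m : Match e rl x Φ) (u v : FreeGroup A) (n : ℕ) :
    ev x (tw (a + a) (wA e u) (wA e v) n) = Φ (Tt _ (u ^ n * v)) := by
  rw [ev_tw, m.wa, m.wa, ← m.ht]
  unfold Tt
  simp only [map_mul, map_pow, map_inv]

theorem match_exists (hx : ∀ w ∈ R0 e rl, ev x w = 1) : ∃ Φ, Match e rl x Φ := by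
  have h1 : ∀ c d, Commute (x (e c)) (x (a + e d)) := by
    intro c d
    have := hx (cmw [((e c : ℕ), true)] [(a + (e d : ℕ), true)]) (by
      unfold R0
      refine List.mem_append_left _ (List.mem_map.2 ⟨(c, d), by simp, rfl⟩))
    rw [ev_cmw, ev_true, ev_true] at this
    exact this
  have h2 : ∀ c, Commute (x (a + a)) (x (e c) * x (a + e c)) := by
    intro c
    have := hx (cmw [(a + a, true)] [((e c : ℕ), true), (a + (e c : ℕ), true)]) (by
      unfold R0
      refine List.mem_append_right _ (List.mem_append_left _ (List.mem_map.2 ⟨c, by simp, rfl⟩)))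
    rw [ev_cmw, ev_true, ev_cons, ev_true, ev_true] at this
    exact this
  have h3 : ∀ k, Commute (x (a + a)) (FreeGroup.lift (fun c => x (e c)) (rl k)) := by
    intro k
    have := hx (cmw [(a + a, true)] (wA e (rl k))) (by
      unfold R0
      refine List.mem_append_right _ (List.mem_append_right _
        (List.mem_map.2 ⟨k, by simp, rfl⟩)))
    rw [ev_cmw, ev_true, ev_wA] at this
    exact this
  obtain ⟨Φ, ha, hb, ht⟩ := KK_lift rl (fun c => x (e c)) (fun c => x (a + e c)) (x (a + a))
    h1 h2 h3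
  exact ⟨Φ, ha, hb, ht⟩

theorem Match.r0 (m : Match e rl x Φ) : ∀ w ∈ R0 e rl, ev x w = 1 := by
  intro w hw
  unfold R0 at hw
  rw [List.mem_append, List.mem_append, List.mem_map, List.mem_map, List.mem_map] at hw
  rcases hw with ⟨c, -, rfl⟩ | ⟨c, -, rfl⟩ | ⟨k, -, rfl⟩
  · rw [ev_cmw, ev_true, ev_true, ← m.ha, ← m.hb]
    exact (ka_kb _ _ _).map Φ
  · rw [ev_cmw, ev_true, ev_cons, ev_true, ev_true, ← m.ha, ← m.hb, ← m.ht, ← map_mul]
    exact (kt_ab _ _).map Φ
  · rw [ev_cmw, ev_true, m.wa, ← m.ht]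
    refine (kt_rel _ _ ?_).map Φ
    exact PresentedGroup.one_of_mem ⟨k, rfl⟩

theorem Match.relsJ (m : Match e rl x Φ) (n j : ℕ) :
    (∀ w ∈ relsJ a (RS e r s) (wA e g) (wA e g') (wA e h) (wA e h') n j, ev x w = 1) ↔
      RelT (Zs (pr rl) r s (fun i => h ^ i * h') j) (Tt (pr rl) (g ^ n * g')) j Φ
        (x (a + a + 1 + j)) := by
  unfold IS.relsJ
  constructor
  · intro hx
    refine ⟨?_, ?_, ?_⟩
    · have := hx _ List.mem_cons_self
      rw [ev_rp, ev_true] at this
      exact this
    · rintro z ((⟨i, rfl⟩ | ⟨i, rfl⟩) | ⟨i, hi, rfl⟩)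
      · have := hx (cmw [(a + a + 1 + j, true)] (wA e (r i))) (by
          refine List.mem_cons_of_mem _ (List.mem_cons_of_mem _ (List.mem_append_left _ ?_))
          refine List.mem_map.2 ⟨_, ?_, rfl⟩
          exact List.mem_append_left _ (List.mem_map.2 ⟨i, by simp, rfl⟩))
        rw [ev_cmw, ev_true, m.wa] at this
        exact this
      · have := hx (cmw [(a + a + 1 + j, true)] (wB e (s i))) (by
          refine List.mem_cons_of_mem _ (List.mem_cons_of_mem _ (List.mem_append_left _ ?_))
          refine List.mem_map.2 ⟨_, ?_, rfl⟩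
          exact List.mem_append_right _ (List.mem_map.2 ⟨i, by simp, rfl⟩))
        rw [ev_cmw, ev_true, m.wb] at this
        exact this
      · have := hx (cmw [(a + a + 1 + j, true)] (IS.tw (a + a) (wA e h) (wA e h') i)) (by
          refine List.mem_cons_of_mem _ (List.mem_cons_of_mem _ (List.mem_append_right _ ?_))
          exact List.mem_map.2 ⟨i, List.mem_range.2 (Nat.lt_succ_of_le hi), rfl⟩)
        rw [ev_cmw, ev_true, m.tw] at this
        exact this
    · have := hx _ (List.mem_cons_of_mem _ List.mem_cons_self)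
      rw [ev_append, ev_append, ev_append, ev_inv, m.tw, ev_true] at this
      exact eq_inv_of_mul_eq_one_left this
  · intro hR w hw
    rw [List.mem_cons, List.mem_cons, List.mem_append, List.mem_map, List.mem_map] at hw
    rcases hw with rfl | rfl | ⟨v, hv, rfl⟩ | ⟨i, hi, rfl⟩
    · rw [ev_rp, ev_true]
      exact hR.ord
    · rw [ev_append, ev_append, ev_append, ev_inv, m.tw, ev_true, hR.inv, inv_mul_cancel]
    · unfold RS at hv
      rw [List.mem_append, List.mem_map, List.mem_map] at hv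
      rw [ev_cmw, ev_true]
      rcases hv with ⟨i, -, rfl⟩ | ⟨i, -, rfl⟩
      · rw [m.wa]
        exact hR.com _ (Or.inl (Or.inl ⟨i, rfl⟩))
      · rw [m.wb]
        exact hR.com _ (Or.inl (Or.inr ⟨i, rfl⟩))
    · rw [ev_cmw, ev_true, m.tw]
      exact hR.com _ (Or.inr ⟨i, Nat.le_of_lt_succ (List.mem_range.1 hi), rfl⟩)

theorem Match.gcode (m : Match e rl x Φ) (n : ℕ) :
    (∀ w ∈ (gcode e rl r s g g' h h' n).2, ev x w = 1) ↔
      ∀ j < n, RelT (Zs (pr rl) r s (fun i => h ^ i * h') j) (Tt (pr rl) (g ^ n * g')) j Φ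
        (x (a + a + 1 + j)) := by
  constructor
  · intro hx j hj
    rw [← m.relsJ]
    intro w hw
    apply hx
    exact List.mem_append_right _ (List.mem_flatMap.2 ⟨j, List.mem_range.2 hj, hw⟩)
  · intro hR w hw
    rcases List.mem_append.1 hw with hw | hw
    · exact m.r0 w hw
    · obtain ⟨j, hj, hw⟩ := List.mem_flatMap.1 hw
      exact (m.relsJ n j).2 (hR j (List.mem_range.1 hj)) w hw

/-- An assignment. -/
def asn (e : A ≃ Fin a) (α β : A → M) (τ : M) (k : ℕ → M) (i : ℕ) : M :=
  if h : i < a then α (e.symm ⟨i, h⟩) else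
    if h' : i < a + a then β (e.symm ⟨i - a, by omega⟩) else
      if i = a + a then τ else k (i - (a + a + 1))

theorem asn_a (α β : A → M) (τ : M) (k : ℕ → M) (c : A) : asn e α β τ k (e c) = α c := by
  unfold asn
  rw [dif_pos (e c).2]
  simp

theorem asn_b (α β : A → M) (τ : M) (k : ℕ → M) (c : A) : asn e α β τ k (a + e c) = β c := by
  unfold asn
  rw [dif_neg (by omega), dif_pos (by omega)]
  congr 1
  rw [Equiv.symm_apply_eq]
  apply Fin.ext
  simp

theorem asn_t (α β : A → M) (τ : M) (k : ℕ → M) : asn e α β τ k (a + a) = τ := by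
  unfold asn
  rw [dif_neg (by omega), dif_neg (by omega), if_pos rfl]

theorem asn_k (α β : A → M) (τ : M) (k : ℕ → M) (j : ℕ) :
    asn e α β τ k (a + a + 1 + j) = k j := by
  unfold asn
  rw [dif_neg (by omega), dif_neg (by omega), if_neg (by omega)]
  congr 1
  omega

theorem idx (e : A ≃ Fin a) {P : ℕ → Prop} (h1 : ∀ c, P (e c)) (h2 : ∀ c, P (a + e c))
    (h3 : P (a + a)) (h4 : ∀ j, P (a + a + 1 + j)) (i : ℕ) : P i := by
  rcases Nat.lt_or_ge i a with h | h
  · have := h1 (e.symm ⟨i, h⟩)
    simpa using this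
  rcases Nat.lt_or_ge i (a + a) with h' | h'
  · have := h2 (e.symm ⟨i - a, by omega⟩)
    rw [Equiv.apply_symm_apply] at this
    have e1 : a + ((⟨i - a, by omega⟩ : Fin a) : ℕ) = i := by
      simp only
      omega
    rw [e1] at this
    exact this
  rcases Nat.eq_or_lt_of_le h' with h'' | h''
  · rw [← h'']; exact h3
  · have := h4 (i - (a + a + 1))
    have e1 : a + a + 1 + (i - (a + a + 1)) = i := by omega
    rw [e1] at this
    exact this

/-- The group of the code is the top of the tower. -/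
theorem iso_tower (n m : ℕ) (hmn : m ≤ n)
    (hm : Dc (pr rl) r s (g ^ n * g') (h ^ m * h')) {B : Type} [Group B] {ι' : KK (pr rl) →* B}
    {k : ℕ → B}
    (T : Tower (Zs (pr rl) r s (fun i => h ^ i * h')) (Tt (pr rl) (g ^ n * g')) m B ι' k) :
    Nonempty (PG (gcode e rl r s g g' h h' n) ≃* B) := by
  classical
  set G := PG (gcode e rl r s g g' h h' n) with hG
  set γ : ℕ → G := gen (gcode e rl r s g g' h h' n) with hγ
  have hN : (gcode e rl r s g g' h h' n).1 = a + a + 1 + n := rfl
  -- the homomorphism to `B`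
  let x : ℕ → B := asn e (fun c => ι' (ka _ c)) (fun c => ι' (kb _ c)) (ι' (kt _))
    (fun j => if j < m then k j else 1)
  have xb : ∀ c, x (a + e c) = ι' (kb _ c) := fun c => by
    show asn e _ _ _ _ (a + e c) = _
    rw [asn_b]
  have xa : ∀ c, x (e c) = ι' (ka _ c) := fun c => by
    show asn e _ _ _ _ (e c) = _
    rw [asn_a]
  have xt : x (a + a) = ι' (kt _) := by
    show asn e _ _ _ _ (a + a) = _
    rw [asn_t]
  have mx : Match e rl x ι' := ⟨fun c => (xa c).symm, fun c => (xb c).symm, xt.symm⟩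
  have xk : ∀ j, x (a + a + 1 + j) = if j < m then k j else 1 := fun j => asn_k _ _ _ _ j
  obtain ⟨F, hF⟩ := PG_lift (gcode e rl r s g g' h h' n) x (by
    intro i hi
    rw [hN] at hi
    have : i = a + a + 1 + (i - (a + a + 1)) := by omega
    rw [this, xk, if_neg (by omega)]) ((mx.gcode n).2 (by
    intro j _
    rw [xk]
    by_cases hj : j < m
    · rw [if_pos hj]
      exact T.rel j hj
    · rw [if_neg hj]
      exact relT_triv _ _ _ _))
  -- the homomorphism from `K`
  have hγrel : ∀ w ∈ (gcode e rl r s g g' h h' n).2, ev γ w = 1 := fun w hw => PG_rel _ hw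
  obtain ⟨Ψ, mγ⟩ : ∃ Ψ, Match e rl γ Ψ := match_exists (fun w hw => hγrel w
    (List.mem_append_left _ hw))
  have hrelγ := (mγ.gcode n).1 hγrel
  obtain ⟨F', hF', hF'k⟩ := T.lift G Ψ (fun j => γ (a + a + 1 + j))
    (fun j hj => hrelγ j (lt_of_lt_of_le hj hmn))
  have hdead : ∀ j, m ≤ j → γ (a + a + 1 + j) = 1 := by
    intro j hj
    rcases Nat.lt_or_ge j n with hjn | hjn
    · exact relT_one (w := fun i => h ^ i * h') (hrelγ j hjn) hj hm
    · exact gen_big _ (by rw [hN]; omega)
  have c1 : F'.comp F = MonoidHom.id G := by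
    apply PG_ext
    intro i
    show F' (F (γ i)) = γ i
    rw [hF]
    revert i
    refine idx e ?_ ?_ ?_ ?_
    · intro c
      rw [← mx.ha, hF', mγ.ha]
    · intro c
      rw [← mx.hb, hF', mγ.hb]
    · rw [← mx.ht, hF', mγ.ht]
    · intro j
      rw [xk]
      by_cases hj : j < m
      · rw [if_pos hj, hF'k j hj]
      · rw [if_neg hj, map_one, hdead j (not_lt.1 hj)]
  have c2 : F.comp F' = MonoidHom.id B := by
    apply T.ext
    · have : (F.comp F').comp ι' = ι' := by
        have e1 : (F.comp F').comp ι' = F.comp Ψ := by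
          apply MonoidHom.ext
          intro y
          show F (F' (ι' y)) = F (Ψ y)
          rw [hF']
        rw [e1]
        apply KK_ext (pr rl) (pr_surj rl)
        · intro c
          show F (Ψ _) = _
          rw [mγ.ha, hF, mx.ha]
        · intro c
          show F (Ψ _) = _
          rw [mγ.hb, hF, mx.hb]
        · show F (Ψ _) = _
          rw [mγ.ht, hF, mx.ht]
      intro y
      exact DFunLike.congr_fun this y
    · intro j hj
      show F (F' (k j)) = k j
      rw [hF'k j hj, hF, xk, if_pos hj]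
  exact ⟨MonoidHom.toMulEquiv F F' c1 c2⟩

/-- The reduction. -/
theorem code_iff {R : ℕ → ℕ → Prop} (hR : Equivalence R)
    (hD : ∀ n i : ℕ, Dc (pr rl) r s (g ^ n * g') (h ^ i * h') ↔ R n i) (n n' : ℕ) :
    R n n' ↔ Nonempty (PG (gcode e rl r s g g' h h' n) ≃* PG (gcode e rl r s g g' h h' n')) := by
  classical
  have hmu : ∀ n, ∃ m, m ≤ n ∧ R n m ∧ (∀ i < m, ¬ R n i) := by
    intro n
    have hex : ∃ i, R n i := ⟨n, hR.refl n⟩
    exact ⟨Nat.find hex, Nat.find_min' hex (hR.refl n), Nat.find_spec hex,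
      fun i hi => Nat.find_min hex hi⟩
  obtain ⟨m, hmn, hm, hm'⟩ := hmu n
  obtain ⟨m', hmn', hm2, hm2'⟩ := hmu n'
  obtain ⟨B, _, ι', k, T⟩ := tower_exists (p := pr rl) (r := r) (s := s)
    (w := fun i => h ^ i * h') (g ^ n * g') m (fun i hi => by rw [hD]; exact hm' i hi)
  obtain ⟨B', _, ι'', k', T'⟩ := tower_exists (p := pr rl) (r := r) (s := s)
    (w := fun i => h ^ i * h') (g ^ n' * g') m' (fun i hi => by rw [hD]; exact hm2' i hi)
  obtain ⟨E⟩ := iso_tower (e := e) n m hmn ((hD n m).2 hm) T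
  obtain ⟨E'⟩ := iso_tower (e := e) n' m' hmn' ((hD n' m').2 hm2) T'
  constructor
  · intro hnn
    have hmm : m = m' := by
      apply le_antisymm
      · by_contra hlt
        exact hm' m' (not_le.1 hlt) (hR.trans hnn hm2)
      · by_contra hlt
        exact hm2' m (not_le.1 hlt) (hR.trans (hR.symm hnn) hm)
    subst hmm
    have hd : Dc (pr rl) r s (g ^ n * g') (g ^ n' * g') :=
      ((hD n m).2 hm).trans ((hD n' m).2 hm2).symm
    obtain ⟨E''⟩ := iso_tower (e := e) n' m hmn' ((hD n' m).2 hm2) (tower_congr T hd)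
    exact ⟨E.trans E''.symm⟩
  · rintro ⟨I⟩
    have hmm : m = m' := tower_height T T' ((E.symm.trans I).trans E')
    subst hmm
    exact hR.trans hm (hR.symm hm2)

end

end Pool.Agent.Q223.IS
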