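import Pool.Agent.Q223.IS.DC
import Pool.Agent.Q223.IS.Arith

set_option autoImplicit false
set_option linter.unusedSectionVars false

/-!
# A finite system of affine rules whose connectedness is a given c.e. equivalence relation
-/

namespace Pool.Agent.Q223.IS

open Pool.Agent.Helper844.Sys

/-- The states. -/
inductive St (N : ℕ) : Type
  | S (s : Fin (N + 1))
  | O (e : Fin N)
  | I (e : Fin N)
  | D (e : Fin N)
  deriving Fintype

/-- The rules. -/
inductive Ru (X : Type) (N : ℕ) : Type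
  | gl (c : X)
  | fl (c : X)
  | ent (e : Fin N)
  | oi (e : Fin N)
  | il (e : Fin N)
  | idd (e : Fin N)
  | dl (e : Fin N)
  | dd (e : Fin N)
  | ext (e : Fin N)
  deriving Fintype

section

variable {X : Type} [Fintype X] [DecidableEq X] (L : List (Eqn X))

/-- The coordinates. -/
abbrev Jx (L : List (Eqn X)) : Type := X ⊕ (Fin L.length × Fin 5)

/-- The linear part of an equation. -/
def lin (q : Eqn X) (v : X → ℤ) : ℤ := q.a * v q.k + q.b * v q.l + q.c * v q.m

theorem holds_iff (q : Eqn X) (v : X → ℤ) :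
    q.Holds v ↔ q.e * (v q.i * v q.j) + lin q v + q.d = 0 := by
  unfold Eqn.Holds lin
  constructor <;> intro h <;> linarith

/-- The values of the unknowns. -/
def rest : (Jx L → ℤ) →+ (X → ℤ) where
  toFun u c := u (Sum.inl c)
  map_zero' := rfl
  map_add' _ _ := rfl

/-- The configuration of stage `s` with given values of the unknowns. -/
def Phi (s : ℕ) : (X → ℤ) →+ (Jx L → ℤ) where
  toFun v := fun
    | Sum.inl c => v c
    | Sum.inr (e, k) => ![v (L.get e).i, 0, if e.1 < s then 0 else v (L.get e).j,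
        if e.1 < s then v (L.get e).j else 0, if e.1 < s then 0 else lin (L.get e) v] k
  map_zero' := by
    funext x
    rcases x with c | ⟨e, k⟩
    · rfl
    · fin_cases k <;> simp [lin]
  map_add' v w := by
    funext x
    rcases x with c | ⟨e, k⟩
    · rfl
    · fin_cases k <;> simp [lin] <;> split_ifs <;> ring

theorem rest_Phi (s : ℕ) (v : X → ℤ) : rest L (Phi L s v) = v := rfl

/-- Setting a coordinate to zero. -/
def Zc (c : Jx L) : (Jx L → ℤ) →+ (Jx L → ℤ) where
  toFun u := Function.update u c 0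
  map_zero' := by
    funext x
    by_cases h : x = c
    · subst h; simp
    · simp [Function.update_of_ne h]
  map_add' u w := by
    funext x
    by_cases h : x = c
    · subst h; simp
    · simp [Function.update_of_ne h]

/-- A unit vector in a block. -/
def ep (e : Fin L.length) (k : Fin 5) : Jx L → ℤ := Pi.single (Sum.inr (e, k)) 1

variable (n m : X)

/-- The rules. -/
def Dr : Ru X L.length → Rl (St L.length) (Jx L)
  | Ru.gl c => ⟨St.S 0, St.S 0, (Phi L 0).comp (rest L), 0,
      if c = n then 0 else Phi L 0 (Pi.single c 1)⟩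
  | Ru.fl c => ⟨St.S (Fin.last _), St.S (Fin.last _), (Phi L L.length).comp (rest L), 0,
      if c = m then 0 else Phi L L.length (Pi.single c 1)⟩
  | Ru.ent e => ⟨St.S e.castSucc, St.O e, (Phi L e).comp (rest L), 0,
      (L.get e).d • ep L e 4⟩
  | Ru.oi e => ⟨St.O e, St.I e, Zc L (Sum.inr (e, 1)), 0, - ep L e 2 + ep L e 3⟩
  | Ru.il e => ⟨St.I e, St.I e, AddMonoidHom.id _, 0,
      - ep L e 0 + ep L e 1 + (L.get e).e • ep L e 4⟩
  | Ru.idd e => ⟨St.I e, St.D e, Zc L (Sum.inr (e, 0)), 0, 0⟩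
  | Ru.dl e => ⟨St.D e, St.D e, AddMonoidHom.id _, 0, ep L e 0 - ep L e 1⟩
  | Ru.dd e => ⟨St.D e, St.O e, Zc L (Sum.inr (e, 1)), 0, 0⟩
  | Ru.ext e => ⟨St.O e, St.S e.succ, (Phi L (e + 1)).comp (rest L), 0, 0⟩

/-! ### The closed sets -/

variable (A : ℤ → Prop)

/-- Condition of the stage `s`. -/
def Cs (s : ℕ) (v : X → ℤ) : Prop :=
  ((∀ e : Fin L.length, e.1 < s → (L.get e).Holds v) ∧ A (v n)) ∨
    ((∀ e : Fin L.length, s ≤ e.1 → (L.get e).Holds v) ∧ A (v m))

variable {L n m A}

theorem Cs_zero (hA : ∀ v : X → ℤ, (∀ q ∈ L, q.Holds v) → (A (v n) ↔ A (v m))) (v : X → ℤ) :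
    Cs L n m A 0 v ↔ A (v n) := by
  unfold Cs
  constructor
  · rintro (⟨_, h⟩ | ⟨h, h'⟩)
    · exact h
    · refine (hA v ?_).2 h'
      intro q hq
      obtain ⟨e, rfl⟩ := List.get_of_mem hq
      exact h e (Nat.zero_le _)
  · intro h
    exact Or.inl ⟨fun e he => absurd he (Nat.not_lt_zero _), h⟩

theorem Cs_last (hA : ∀ v : X → ℤ, (∀ q ∈ L, q.Holds v) → (A (v n) ↔ A (v m))) (v : X → ℤ) :
    Cs L n m A L.length v ↔ A (v m) := by
  unfold Cs
  constructor
  · rintro (⟨h, h'⟩ | ⟨_, h⟩)
    · refine (hA v ?_).1 h'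
      intro q hq
      obtain ⟨e, rfl⟩ := List.get_of_mem hq
      exact h e e.2
    · exact h
  · intro h
    exact Or.inr ⟨fun e he => absurd e.2 (not_lt.2 he), h⟩

theorem Cs_succ (e : Fin L.length) (v : X → ℤ) (he : (L.get e).Holds v) :
    Cs L n m A e v ↔ Cs L n m A (e + 1) v := by
  unfold Cs
  constructor
  · rintro (⟨h, h'⟩ | ⟨h, h'⟩)
    · refine Or.inl ⟨?_, h'⟩
      intro e' he'
      rcases Nat.lt_or_ge e'.1 e.1 with h1 | h1
      · exact h e' h1
      · have : e' = e := Fin.ext (by omega)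
        rw [this]; exact he
    · exact Or.inr ⟨fun e' he' => h e' (by omega), h'⟩
  · rintro (⟨h, h'⟩ | ⟨h, h'⟩)
    · exact Or.inl ⟨fun e' he' => h e' (by omega), h'⟩
    · refine Or.inr ⟨?_, h'⟩
      intro e' he'
      rcases Nat.lt_or_ge e.1 e'.1 with h1 | h1
      · exact h e' h1
      · have : e' = e := Fin.ext (by omega)
        rw [this]; exact he

variable (L n m A)

/-- The invariant inside the gadget `e`. -/
def Gd (e : Fin L.length) (u : Jx L → ℤ) (δ : ℤ) : Prop :=
  (∀ e' : Fin L.length, e' ≠ e → ∀ k, u (Sum.inr (e', k)) = Phi L e (rest L u) (Sum.inr (e', k))) ∧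
  u (Sum.inr (e, 0)) + u (Sum.inr (e, 1)) = rest L u (L.get e).i ∧
  u (Sum.inr (e, 2)) + u (Sum.inr (e, 3)) = rest L u (L.get e).j ∧
  ((u (Sum.inr (e, 4)) - (L.get e).e *
      (rest L u (L.get e).i * (u (Sum.inr (e, 3)) - δ) + δ * u (Sum.inr (e, 1))) =
        lin (L.get e) (rest L u) + (L.get e).d ∧ Cs L n m A e (rest L u)) ∨
    (u (Sum.inr (e, 4)) - (L.get e).e *
      (rest L u (L.get e).i * (u (Sum.inr (e, 3)) - δ) + δ * u (Sum.inr (e, 1))) =
        - ((L.get e).e * (rest L u (L.get e).i * rest L u (L.get e).j)) ∧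
      Cs L n m A (e + 1) (rest L u)))

/-- The closed set. -/
def CC : St L.length → (Jx L → ℤ) → Prop
  | St.S s, u => u = Phi L s (rest L u) ∧ Cs L n m A s (rest L u)
  | St.O e, u => Gd L n m A e u 0 ∧ u (Sum.inr (e, 1)) = 0
  | St.I e, u => Gd L n m A e u 1
  | St.D e, u => Gd L n m A e u 0

variable {L n m A}

theorem Gd_congr (e : Fin L.length) (u u' : Jx L → ℤ) (δ δ' : ℤ)
    (h0 : rest L u' = rest L u)
    (h1 : ∀ e' : Fin L.length, e' ≠ e → ∀ k, u' (Sum.inr (e', k)) = u (Sum.inr (e', k)))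
    (h2 : u' (Sum.inr (e, 0)) + u' (Sum.inr (e, 1)) = u (Sum.inr (e, 0)) + u (Sum.inr (e, 1)))
    (h3 : u' (Sum.inr (e, 2)) + u' (Sum.inr (e, 3)) = u (Sum.inr (e, 2)) + u (Sum.inr (e, 3)))
    (h4 : u (Sum.inr (e, 0)) + u (Sum.inr (e, 1)) = rest L u (L.get e).i →
      u' (Sum.inr (e, 4)) - (L.get e).e *
      (rest L u (L.get e).i * (u' (Sum.inr (e, 3)) - δ') + δ' * u' (Sum.inr (e, 1))) =
      u (Sum.inr (e, 4)) - (L.get e).e *
      (rest L u (L.get e).i * (u (Sum.inr (e, 3)) - δ) + δ * u (Sum.inr (e, 1)))) :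
    Gd L n m A e u' δ' ↔ Gd L n m A e u δ := by
  unfold Gd
  rw [h0, h2, h3]
  refine and_congr ?_ (and_congr_right fun ha => ?_)
  · refine forall_congr' fun e' => forall_congr' fun he' => forall_congr' fun k => ?_
    rw [h1 e' he' k]
  · rw [h4 ha]

@[simp] theorem ep_inl (e : Fin L.length) (k : Fin 5) (c : X) : ep L e k (Sum.inl c) = 0 := by
  simp [ep]

@[simp] theorem ep_inr (e : Fin L.length) (k k' : Fin 5) :
    ep L e k (Sum.inr (e, k')) = if k' = k then 1 else 0 := by
  by_cases h : k' = k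
  · subst h; simp [ep]
  · rw [if_neg h]
    unfold ep
    rw [Pi.single_apply, if_neg]
    intro h'
    exact h (Prod.mk.inj (Sum.inr.inj h')).2

theorem ep_ne {e e' : Fin L.length} (k k' : Fin 5) (h : e' ≠ e) :
    ep L e k (Sum.inr (e', k')) = 0 := by
  unfold ep
  rw [Pi.single_apply, if_neg]
  intro h'
  exact h (Prod.mk.inj (Sum.inr.inj h')).1

@[simp] theorem rest_ep (e : Fin L.length) (k : Fin 5) : rest L (ep L e k) = 0 := by
  funext c
  show ep L e k (Sum.inl c) = 0
  simp

theorem CC_S (s : Fin (L.length + 1)) (v : X → ℤ) :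
    CC L n m A (St.S s) (Phi L s v) ↔ Cs L n m A s v := by
  show Phi L s v = Phi L s (rest L (Phi L s v)) ∧ Cs L n m A s (rest L (Phi L s v)) ↔ _
  rw [rest_Phi]
  simp

theorem Phi_succ_ne {e e' : Fin L.length} (h : e' ≠ e) (v : X → ℤ) (k : Fin 5) :
    Phi L (e + 1) v (Sum.inr (e', k)) = Phi L e v (Sum.inr (e', k)) := by
  have h1 : e'.1 < e.1 + 1 ↔ e'.1 < e.1 := by
    have : e'.1 ≠ e.1 := fun h' => h (Fin.ext h')
    omega
  show ![_, _, _, _, _] k = ![_, _, _, _, _] k
  simp only [h1]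

theorem closed_CC (hA : ∀ v : X → ℤ, (∀ q ∈ L, q.Holds v) → (A (v n) ↔ A (v m))) :
    Closed (Dr L n m) (CC L n m A) := by
  intro i z
  rcases i with c | c | e | e | e | e | e | e | e
  · show CC L n m A (St.S 0) (0 + Phi L 0 (rest L z)) ↔
      CC L n m A (St.S 0) ((if c = n then 0 else Phi L 0 (Pi.single c 1)) + Phi L 0 (rest L z))
    by_cases hc : c = n
    · rw [if_pos hc]
    · rw [if_neg hc, ← map_add, zero_add]
      have h := fun v => CC_S (L := L) (n := n) (m := m) (A := A) 0 v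
      simp only [Fin.val_zero] at h
      rw [h, h, Cs_zero hA, Cs_zero hA, Pi.add_apply, Pi.single_eq_of_ne (Ne.symm hc), zero_add]
  · show CC L n m A (St.S (Fin.last _)) (0 + Phi L L.length (rest L z)) ↔
      CC L n m A (St.S (Fin.last _))
        ((if c = m then 0 else Phi L L.length (Pi.single c 1)) + Phi L L.length (rest L z))
    by_cases hc : c = m
    · rw [if_pos hc]
    · rw [if_neg hc, ← map_add, zero_add]
      have h := fun v => CC_S (L := L) (n := n) (m := m) (A := A) (Fin.last _) v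
      simp only [Fin.val_last] at h
      rw [h, h, Cs_last hA, Cs_last hA, Pi.add_apply, Pi.single_eq_of_ne (Ne.symm hc), zero_add]
  · -- entry
    show CC L n m A (St.S e.castSucc) (0 + Phi L e (rest L z)) ↔
      CC L n m A (St.O e) ((L.get e).d • ep L e 4 + Phi L e (rest L z))
    have h := CC_S (L := L) (n := n) (m := m) (A := A) e.castSucc (rest L z)
    simp only [Fin.val_castSucc] at h
    rw [zero_add, h]
    generalize rest L z = v
    set u := (L.get e).d • ep L e 4 + Phi L e v with hu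
    have r : rest L u = v := by
      rw [hu, map_add, map_zsmul, rest_ep, smul_zero, zero_add, rest_Phi]
    have u0 : u (Sum.inr (e, 0)) = v (L.get e).i := by simp [hu, Phi]
    have u1 : u (Sum.inr (e, 1)) = 0 := by simp [hu, Phi]
    have u2 : u (Sum.inr (e, 2)) = v (L.get e).j := by simp [hu, Phi]
    have u3 : u (Sum.inr (e, 3)) = 0 := by simp [hu, Phi]
    have u4 : u (Sum.inr (e, 4)) = (L.get e).d + lin (L.get e) v := by simp [hu, Phi]
    have ub : ∀ e' : Fin L.length, e' ≠ e → ∀ k, u (Sum.inr (e', k)) =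
        Phi L e (rest L u) (Sum.inr (e', k)) := by
      intro e' he' k
      rw [r, hu]
      simp [ep_ne _ _ he']
    show _ ↔ Gd L n m A e u 0 ∧ u (Sum.inr (e, 1)) = 0
    unfold Gd
    rw [r, u0, u1, u2, u3, u4]
    rw [r] at ub
    constructor
    · intro hC
      exact ⟨⟨ub, by ring, by ring, Or.inl ⟨by ring, hC⟩⟩, rfl⟩
    · rintro ⟨⟨-, -, -, ⟨-, hC⟩ | ⟨h1, hC⟩⟩, -⟩
      · exact hC
      · refine (Cs_succ e v ?_).2 hC
        rw [holds_iff]
        linarith
  · -- from O to I
    show CC L n m A (St.O e) (0 + Zc L (Sum.inr (e, 1)) z) ↔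
      CC L n m A (St.I e) (- ep L e 2 + ep L e 3 + Zc L (Sum.inr (e, 1)) z)
    have hz : Zc L (Sum.inr (e, 1)) z (Sum.inr (e, 1)) = 0 := by simp [Zc]
    generalize Zc L (Sum.inr (e, 1)) z = u at hz ⊢
    rw [zero_add]
    show Gd L n m A e u 0 ∧ u (Sum.inr (e, 1)) = 0 ↔ Gd L n m A e _ 1
    rw [Gd_congr e u (- ep L e 2 + ep L e 3 + u) 0 1]
    · exact and_iff_left hz
    · simp
    · intro e' he' k
      simp [ep_ne _ _ he']
    · simp
    · simp
      ring
    · intro _
      simp [hz]
  · -- the inner loop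
    show CC L n m A (St.I e) (0 + z) ↔
      CC L n m A (St.I e) (- ep L e 0 + ep L e 1 + (L.get e).e • ep L e 4 + z)
    rw [zero_add]
    show Gd L n m A e z 1 ↔ Gd L n m A e _ 1
    rw [Gd_congr e z (- ep L e 0 + ep L e 1 + (L.get e).e • ep L e 4 + z) 1 1]
    · rw [map_add, map_add, map_add, map_neg, map_zsmul]
      simp
    · intro e' he' k
      simp [ep_ne _ _ he']
    · simp
      ring
    · simp
    · intro _
      simp
      ring
  · -- from I to D
    show CC L n m A (St.I e) (0 + Zc L (Sum.inr (e, 0)) z) ↔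
      CC L n m A (St.D e) (0 + Zc L (Sum.inr (e, 0)) z)
    have hz : Zc L (Sum.inr (e, 0)) z (Sum.inr (e, 0)) = 0 := by simp [Zc]
    generalize Zc L (Sum.inr (e, 0)) z = u at hz ⊢
    rw [zero_add]
    show Gd L n m A e u 1 ↔ Gd L n m A e u 0
    rw [Gd_congr e u u 1 0 rfl (fun _ _ _ => rfl) rfl rfl]
    intro h
    rw [← h, hz]
    ring
  · -- the loop at D
    show CC L n m A (St.D e) (0 + z) ↔ CC L n m A (St.D e) (ep L e 0 - ep L e 1 + z)
    rw [zero_add]
    show Gd L n m A e z 0 ↔ Gd L n m A e _ 0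
    rw [Gd_congr e z (ep L e 0 - ep L e 1 + z) 0 0]
    · simp
    · intro e' he' k
      simp [ep_ne _ _ he']
    · simp
      ring
    · simp
    · intro _
      simp
  · -- from D to O
    show CC L n m A (St.D e) (0 + Zc L (Sum.inr (e, 1)) z) ↔
      CC L n m A (St.O e) (0 + Zc L (Sum.inr (e, 1)) z)
    have hz : Zc L (Sum.inr (e, 1)) z (Sum.inr (e, 1)) = 0 := by simp [Zc]
    generalize Zc L (Sum.inr (e, 1)) z = u at hz ⊢
    rw [zero_add]
    show Gd L n m A e u 0 ↔ Gd L n m A e u 0 ∧ u (Sum.inr (e, 1)) = 0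
    exact (and_iff_left hz).symm
  · -- exit
    show CC L n m A (St.O e) (0 + Phi L (e + 1) (rest L z)) ↔
      CC L n m A (St.S e.succ) (0 + Phi L (e + 1) (rest L z))
    have h := CC_S (L := L) (n := n) (m := m) (A := A) e.succ (rest L z)
    simp only [Fin.val_succ] at h
    rw [zero_add, h]
    generalize rest L z = v
    set u := Phi L (e + 1) v with hu
    have r : rest L u = v := rfl
    have u0 : u (Sum.inr (e, 0)) = v (L.get e).i := by simp [hu, Phi]
    have u1 : u (Sum.inr (e, 1)) = 0 := by simp [hu, Phi]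
    have u2 : u (Sum.inr (e, 2)) = 0 := by simp [hu, Phi]
    have u3 : u (Sum.inr (e, 3)) = v (L.get e).j := by simp [hu, Phi]
    have u4 : u (Sum.inr (e, 4)) = 0 := by simp [hu, Phi]
    have ub : ∀ e' : Fin L.length, e' ≠ e → ∀ k, u (Sum.inr (e', k)) =
        Phi L e (rest L u) (Sum.inr (e', k)) := by
      intro e' he' k
      rw [r, hu, Phi_succ_ne he']
    show Gd L n m A e u 0 ∧ u (Sum.inr (e, 1)) = 0 ↔ _
    unfold Gd
    rw [r, u0, u1, u2, u3, u4]
    rw [r] at ub
    constructor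
    · rintro ⟨⟨-, -, -, ⟨h1, hC⟩ | ⟨-, hC⟩⟩, -⟩
      · refine (Cs_succ e v ?_).1 hC
        rw [holds_iff]
        linarith
      · exact hC
    · intro hC
      exact ⟨⟨ub, by ring, by ring, Or.inr ⟨by ring, hC⟩⟩, rfl⟩

/-! ### Completeness -/

/-- Connectedness. -/
abbrev Cn (L : List (Eqn X)) (n m : X) :
    St L.length × (Jx L → ℤ) → St L.length × (Jx L → ℤ) → Prop :=
  Relation.EqvGen (Step (Dr L n m))

theorem stp (i : Ru X L.length) (u u' : Jx L → ℤ) (hu : (Dr L n m i).μ u = u)
    (hu' : (Dr L n m i).b + u = u') :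
    Cn L n m ((Dr L n m i).src, u) ((Dr L n m i).tgt, u') := by
  have h := Step.mk (D := Dr L n m) i u
  have ha : (Dr L n m i).a = 0 := by cases i <;> rfl
  rw [hu, ha, zero_add, hu'] at h
  exact Relation.EqvGen.rel _ _ h

/-- A configuration inside the gadget `e`. -/
def cf (e : Fin L.length) (v : X → ℤ) (x y w : ℤ) : Jx L → ℤ
  | Sum.inl c => v c
  | Sum.inr (e', k) => if e' = e then
      ![v (L.get e).i - x, x, v (L.get e).j - y, y, w] k else Phi L e v (Sum.inr (e', k))

theorem cf_self (e : Fin L.length) (v : X → ℤ) (x y w : ℤ) (k : Fin 5) :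
    cf e v x y w (Sum.inr (e, k)) = ![v (L.get e).i - x, x, v (L.get e).j - y, y, w] k := by
  simp [cf]

theorem cf_ne {e e' : Fin L.length} (v : X → ℤ) (x y w : ℤ) (k : Fin 5) (h : e' ≠ e) :
    cf e v x y w (Sum.inr (e', k)) = Phi L e v (Sum.inr (e', k)) := by
  simp [cf, h]

theorem jx_ext (e : Fin L.length) {u u' : Jx L → ℤ} (h : ∀ c, u (Sum.inl c) = u' (Sum.inl c))
    (h0 : u (Sum.inr (e, 0)) = u' (Sum.inr (e, 0))) (h1 : u (Sum.inr (e, 1)) = u' (Sum.inr (e, 1)))
    (h2 : u (Sum.inr (e, 2)) = u' (Sum.inr (e, 2))) (h3 : u (Sum.inr (e, 3)) = u' (Sum.inr (e, 3)))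
    (h4 : u (Sum.inr (e, 4)) = u' (Sum.inr (e, 4)))
    (h5 : ∀ e', e' ≠ e → ∀ k, u (Sum.inr (e', k)) = u' (Sum.inr (e', k))) : u = u' := by
  funext c
  rcases c with c | ⟨e', k⟩
  · exact h c
  · by_cases he : e' = e
    · subst he
      fin_cases k
      · exact h0
      · exact h1
      · exact h2
      · exact h3
      · exact h4
    · exact h5 e' he k

theorem zc_eq {c : Jx L} {u : Jx L → ℤ} (h : u c = 0) : Zc L c u = u := by
  show Function.update u c 0 = u
  rw [← h]
  exact Function.update_eq_self c u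

theorem k_oi (e : Fin L.length) (v : X → ℤ) (y w : ℤ) :
    Cn L n m (St.O e, cf e v 0 y w) (St.I e, cf e v 0 (y + 1) w) := by
  refine stp (L := L) (n := n) (m := m) (Ru.oi e) _ _ (zc_eq (by simp [cf_self])) ?_
  show - ep L e 2 + ep L e 3 + cf e v 0 y w = _
  apply jx_ext e
  · intro c; simp [cf]
  · simp [cf_self]
  · simp [cf_self]
  · simp [cf_self]; ring
  · simp [cf_self]; ring
  · simp [cf_self]
  · intro e' he' k
    simp [cf_ne _ _ _ _ _ he', ep_ne _ _ he']

theorem k_il (e : Fin L.length) (v : X → ℤ) (x y w : ℤ) :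
    Cn L n m (St.I e, cf e v x y w) (St.I e, cf e v (x + 1) y (w + (L.get e).e)) := by
  refine stp (L := L) (n := n) (m := m) (Ru.il e) _ _ rfl ?_
  show - ep L e 0 + ep L e 1 + (L.get e).e • ep L e 4 + cf e v x y w = _
  apply jx_ext e
  · intro c; simp [cf]
  · simp [cf_self]; ring
  · simp [cf_self]; ring
  · simp [cf_self]
  · simp [cf_self]
  · simp [cf_self]; ring
  · intro e' he' k
    simp [cf_ne _ _ _ _ _ he', ep_ne _ _ he']

theorem k_id (e : Fin L.length) (v : X → ℤ) (y w : ℤ) :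
    Cn L n m (St.I e, cf e v (v (L.get e).i) y w) (St.D e, cf e v (v (L.get e).i) y w) := by
  refine stp (L := L) (n := n) (m := m) (Ru.idd e) _ _ (zc_eq (by simp [cf_self])) ?_
  show 0 + _ = _
  rw [zero_add]

theorem k_dl (e : Fin L.length) (v : X → ℤ) (x y w : ℤ) :
    Cn L n m (St.D e, cf e v (x + 1) y w) (St.D e, cf e v x y w) := by
  refine stp (L := L) (n := n) (m := m) (Ru.dl e) _ _ rfl ?_
  show ep L e 0 - ep L e 1 + cf e v (x + 1) y w = _
  apply jx_ext e
  · intro c; simp [cf]
  · simp [cf_self]; ring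
  · simp [cf_self]
  · simp [cf_self]
  · simp [cf_self]
  · simp [cf_self]
  · intro e' he' k
    simp [cf_ne _ _ _ _ _ he', ep_ne _ _ he']

theorem k_dd (e : Fin L.length) (v : X → ℤ) (y w : ℤ) :
    Cn L n m (St.D e, cf e v 0 y w) (St.O e, cf e v 0 y w) := by
  refine stp (L := L) (n := n) (m := m) (Ru.dd e) _ _ (zc_eq (by simp [cf_self])) ?_
  show 0 + _ = _
  rw [zero_add]

theorem k_ent (e : Fin L.length) (v : X → ℤ) :
    Cn L n m (St.S e.castSucc, Phi L e v)
      (St.O e, cf e v 0 0 (lin (L.get e) v + (L.get e).d)) := by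
  refine stp (L := L) (n := n) (m := m) (Ru.ent e) _ _ rfl ?_
  show (L.get e).d • ep L e 4 + Phi L e v = _
  apply jx_ext e
  · intro c; simp [cf, Phi]
  · simp [cf_self, Phi]
  · simp [cf_self, Phi]
  · simp [cf_self, Phi]
  · simp [cf_self, Phi]
  · simp [cf_self, Phi]; ring
  · intro e' he' k
    rw [cf_ne _ _ _ _ _ he']
    simp [ep_ne _ _ he']

theorem k_ext (e : Fin L.length) (v : X → ℤ) :
    Cn L n m (St.O e, cf e v 0 (v (L.get e).j) 0) (St.S e.succ, Phi L (e + 1) v) := by
  have h : cf e v 0 (v (L.get e).j) 0 = Phi L (e + 1) v := by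
    apply jx_ext e
    · intro c; simp [cf, Phi]
    · simp [cf_self, Phi]
    · simp [cf_self, Phi]
    · simp [cf_self, Phi]
    · simp [cf_self, Phi]
    · simp [cf_self, Phi]
    · intro e' he' k
      rw [cf_ne _ _ _ _ _ he', Phi_succ_ne he']
  rw [h]
  refine stp (L := L) (n := n) (m := m) (Ru.ext e) _ _ rfl ?_
  show 0 + _ = _
  rw [zero_add]

theorem int_chain {α : Type} {r : α → α → Prop} (f : ℤ → α)
    (h : ∀ k, Relation.EqvGen r (f k) (f (k + 1))) (a b : ℤ) :
    Relation.EqvGen r (f a) (f b) := by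
  have h0 : ∀ k, Relation.EqvGen r (f 0) (f k) := by
    intro k
    induction k with
    | zero => exact Relation.EqvGen.refl _
    | succ k ih => exact ih.trans _ _ _ (h _)
    | pred k ih =>
      refine ih.trans _ _ _ ?_
      have := h (-(k : ℤ) - 1)
      rw [sub_add_cancel] at this
      exact this.symm
  exact (h0 a).symm.trans _ _ _ (h0 b)

theorem k_outer (e : Fin L.length) (v : X → ℤ) (y w : ℤ) :
    Cn L n m (St.O e, cf e v 0 y w)
      (St.O e, cf e v 0 (y + 1) (w + (L.get e).e * v (L.get e).i)) := by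
  have h1 := int_chain (fun x : ℤ => (St.I e, cf e v x (y + 1) (w + (L.get e).e * x)))
    (r := Step (Dr L n m)) (by
      intro x
      have := k_il (n := n) (m := m) e v x (y + 1) (w + (L.get e).e * x)
      have e1 : w + (L.get e).e * x + (L.get e).e = w + (L.get e).e * (x + 1) := by ring
      rw [e1] at this
      exact this) 0 (v (L.get e).i)
  rw [mul_zero, add_zero] at h1
  have h2 := int_chain (fun x : ℤ => (St.D e, cf e v x (y + 1)
    (w + (L.get e).e * v (L.get e).i))) (r := Step (Dr L n m))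
    (fun x => (k_dl e v x _ _).symm) (v (L.get e).i) 0
  exact (((k_oi e v y w).trans _ _ _ h1).trans _ _ _ (k_id e v _ _)).trans _ _ _
    (h2.trans _ _ _ (k_dd e v _ _))

theorem k_gadget (e : Fin L.length) (v : X → ℤ) (h : (L.get e).Holds v) :
    Cn L n m (St.S e.castSucc, Phi L e v) (St.S e.succ, Phi L (e + 1) v) := by
  have h1 := int_chain (fun y : ℤ => (St.O e, cf e v 0 y
    (lin (L.get e) v + (L.get e).d + (L.get e).e * v (L.get e).i * y)))
    (r := Step (Dr L n m)) (by
      intro y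
      have := k_outer (n := n) (m := m) e v y
        (lin (L.get e) v + (L.get e).d + (L.get e).e * v (L.get e).i * y)
      have e1 : lin (L.get e) v + (L.get e).d + (L.get e).e * v (L.get e).i * y +
        (L.get e).e * v (L.get e).i = lin (L.get e) v + (L.get e).d +
        (L.get e).e * v (L.get e).i * (y + 1) := by ring
      rw [e1] at this
      exact this) 0 (v (L.get e).j)
  rw [holds_iff] at h
  have e2 : lin (L.get e) v + (L.get e).d + (L.get e).e * v (L.get e).i * v (L.get e).j = 0 := by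
    linarith
  simp only [e2, mul_zero, add_zero] at h1
  exact ((k_ent e v).trans _ _ _ h1).trans _ _ _ (k_ext e v)

theorem k_all (v : X → ℤ) (h : ∀ q ∈ L, q.Holds v) (s : ℕ) (hs : s ≤ L.length) :
    Cn L n m (St.S 0, Phi L 0 v) (St.S ⟨s, Nat.lt_succ_of_le hs⟩, Phi L s v) := by
  induction s with
  | zero => exact Relation.EqvGen.refl _
  | succ s ih =>
    have := k_gadget (n := n) (m := m) (⟨s, hs⟩ : Fin L.length) v (h _ (List.get_mem _ _))
    exact (ih (Nat.le_of_succ_le hs)).trans _ _ _ this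

theorem k_gl (v v' : X → ℤ) (h : v n = v' n) :
    Cn L n m (St.S 0, Phi L 0 v) (St.S 0, Phi L 0 v') := by
  let T : AddSubgroup (X → ℤ) :=
    { carrier := {w | ∀ v, Cn L n m (St.S 0, Phi L 0 v) (St.S 0, Phi L 0 (w + v))}
      zero_mem' := by
        intro v
        rw [zero_add]
        exact Relation.EqvGen.refl _
      add_mem' := by
        intro a b ha hb v
        rw [add_assoc]
        exact (hb v).trans _ _ _ (ha _)
      neg_mem' := by
        intro a ha v
        have := ha (-a + v)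
        rw [add_neg_cancel_left] at this
        exact this.symm }
  have h1 : ∀ c, c ≠ n → (Pi.single c (1 : ℤ) : X → ℤ) ∈ T := by
    intro c hc v
    refine stp (L := L) (n := n) (m := m) (Ru.gl c) _ _ rfl ?_
    show (if c = n then 0 else Phi L 0 (Pi.single c 1)) + Phi L 0 v = _
    rw [if_neg hc, map_add]
  have h2 : v' - v ∈ T := by
    have e : v' - v = ∑ c, (v' - v) c • (Pi.single c (1 : ℤ) : X → ℤ) := by
      conv_lhs => rw [← Finset.univ_sum_single (v' - v)]
      apply Finset.sum_congr rfl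
      intro c _
      rw [← Pi.single_smul]
      simp
    rw [e]
    refine sum_mem fun c _ => ?_
    by_cases hc : c = n
    · have : (v' - v) c = 0 := by rw [hc, Pi.sub_apply, h, sub_self]
      rw [this, zero_smul]
      exact zero_mem _
    · exact zsmul_mem (h1 c hc) _
  have := h2 v
  rw [sub_add_cancel] at this
  exact this

theorem k_fl (v v' : X → ℤ) (h : v m = v' m) :
    Cn L n m (St.S (Fin.last _), Phi L L.length v) (St.S (Fin.last _), Phi L L.length v') := by
  let T : AddSubgroup (X → ℤ) :=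
    { carrier := {w | ∀ v, Cn L n m (St.S (Fin.last _), Phi L L.length v)
        (St.S (Fin.last _), Phi L L.length (w + v))}
      zero_mem' := by
        intro v
        rw [zero_add]
        exact Relation.EqvGen.refl _
      add_mem' := by
        intro a b ha hb v
        rw [add_assoc]
        exact (hb v).trans _ _ _ (ha _)
      neg_mem' := by
        intro a ha v
        have := ha (-a + v)
        rw [add_neg_cancel_left] at this
        exact this.symm }
  have h1 : ∀ c, c ≠ m → (Pi.single c (1 : ℤ) : X → ℤ) ∈ T := by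
    intro c hc v
    refine stp (L := L) (n := n) (m := m) (Ru.fl c) _ _ rfl ?_
    show (if c = m then 0 else Phi L L.length (Pi.single c 1)) + Phi L L.length v = _
    rw [if_neg hc, map_add]
  have h2 : v' - v ∈ T := by
    have e : v' - v = ∑ c, (v' - v) c • (Pi.single c (1 : ℤ) : X → ℤ) := by
      conv_lhs => rw [← Finset.univ_sum_single (v' - v)]
      apply Finset.sum_congr rfl
      intro c _
      rw [← Pi.single_smul]
      simp
    rw [e]
    refine sum_mem fun c _ => ?_
    by_cases hc : c = m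
    · have : (v' - v) c = 0 := by rw [hc, Pi.sub_apply, h, sub_self]
      rw [this, zero_smul]
      exact zero_mem _
    · exact zsmul_mem (h1 c hc) _
  have := h2 v
  rw [sub_add_cancel] at this
  exact this

/-- The rules encode the relation. -/
theorem graph {R : ℕ → ℕ → Prop} (hR : Equivalence R) (hD : Defines R n m L) (k l : ℕ) :
    Dbl (Dr L n m)
      (gw (Ru X L.length) (St.S 0, k • Phi L 0 (Pi.single n 1)))
      (gw (Ru X L.length) (St.S (Fin.last _), l • Phi L L.length (Pi.single m 1))) ↔ R k l := by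
  constructor
  · intro h
    let A : ℤ → Prop := fun a => ∃ b : ℕ, a = b ∧ R b l
    have hA : ∀ v : X → ℤ, (∀ q ∈ L, q.Holds v) → (A (v n) ↔ A (v m)) := by
      intro v hv
      obtain ⟨a, b, ha, hb, hab⟩ := (hD (v n) (v m)).1 ⟨v, rfl, rfl, hv⟩
      rw [ha, hb]
      constructor
      · rintro ⟨c, hc, hcl⟩
        have : a = c := by exact_mod_cast hc
        subst this
        exact ⟨b, rfl, hR.trans (hR.symm hab) hcl⟩
      · rintro ⟨c, hc, hcl⟩
        have : b = c := by exact_mod_cast hc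
        subst this
        exact ⟨a, rfl, hR.trans hab hcl⟩
    have h1 := dbl_sound (Dr L n m) (closed_CC hA) h
    simp only at h1
    rw [← map_nsmul, ← map_nsmul] at h1
    have h2 := CC_S (L := L) (n := n) (m := m) (A := A) (Fin.last _) (l • Pi.single m 1)
    have h3 := CC_S (L := L) (n := n) (m := m) (A := A) 0 (k • Pi.single n 1)
    simp only [Fin.val_last, Fin.val_zero] at h2 h3
    rw [h2, h3, Cs_last hA, Cs_zero hA] at h1
    have h4 := h1 (by
      refine ⟨l, ?_, hR.refl l⟩
      simp)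
    obtain ⟨c, hc, hcl⟩ := h4
    have : k = c := by
      simp at hc
      exact_mod_cast hc
    subst this
    exact hcl
  · intro h
    obtain ⟨v, hn, hm, hv⟩ := (hD k l).2 ⟨k, l, rfl, rfl, h⟩
    apply dbl_eqv
    rw [← map_nsmul, ← map_nsmul]
    have h1 := k_gl (L := L) (n := n) (m := m) (k • Pi.single n 1) v (by simp [hn])
    have h2 := k_all (n := n) (m := m) v hv L.length le_rfl
    have h3 := k_fl (L := L) (n := n) (m := m) v (l • Pi.single m 1) (by simp [hm])
    exact (h1.trans _ _ _ h2).trans _ _ _ h3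

end

end Pool.Agent.Q223.IS
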