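import Pool.Agent.Q223.IS.Fin
import Pool.Agent.Q223.IS.Graph

set_option autoImplicit false
set_option linter.unusedSectionVars false

/-!
# Every c.e. equivalence relation reduces to isomorphism of finite presentations
-/

namespace Pool.Agent.Q223.IS

open Pool.Agent.Helper844.Sys

theorem hard (R : ℕ → ℕ → Prop) (hR : Equivalence R)
    (hre : REPred fun p : ℕ × ℕ => R p.1 p.2) :
    ∃ f : ℕ → ℕ × List Wd, Computable f ∧ ∀ x y, R x y ↔ Nonempty (PG (f x) ≃* PG (f y)) := by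
  classical
  obtain ⟨X, _, n, m, L, -, hD⟩ := arith R hre
  let e := Fintype.equivFin (Al (St L.length) (Jx L) (Ru X L.length))
  let D := Dr L n m
  let g := Xw (gx (St L.length) (Jx L) (Ru X L.length)) (Phi L 0 (Pi.single n 1))
  let h := Xw (gx (St L.length) (Jx L) (Ru X L.length)) (Phi L L.length (Pi.single m 1))
  let g' := gt (Jx L) (Ru X L.length) (St.S 0 : St L.length)
  let h' := gt (Jx L) (Ru X L.length) (St.S (Fin.last _) : St L.length)
  refine ⟨gcode e (rel D) (gr (St L.length) (Jx L)) (gs D) g g' h h', fcode_comp _ _ _ _ _ _ _, ?_⟩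
  intro x y
  refine code_iff hR ?_ x y
  intro k l
  rw [← graph (L := L) (n := n) (m := m) hR hD k l]
  have e1 : pj D (g ^ k * g') =
      pj D (gw (Ru X L.length) (St.S 0, k • Phi L 0 (Pi.single n 1))) := by
    unfold gw
    rw [map_mul, map_mul, map_pow, map_Xw, map_Xw, Xw_nsmul _ (pj_xx D)]
  have e2 : pj D (h ^ l * h') =
      pj D (gw (Ru X L.length) (St.S (Fin.last _), l • Phi L L.length (Pi.single m 1))) := by
    unfold gw
    rw [map_mul, map_mul, map_pow, map_Xw, map_Xw, Xw_nsmul _ (pj_xx D)]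
  unfold Dc Dbl
  constructor
  · rintro ⟨ρ, hρ, σ, hσ, h3⟩
    refine ⟨ρ, hρ, σ, hσ, ?_⟩
    have h4 : pj D (g ^ k * g') = pj D (ρ * (h ^ l * h') * σ) := h3
    rw [map_mul, map_mul, ← e2, ← map_mul, ← map_mul, ← h4, e1]
  · rintro ⟨ρ, hρ, σ, hσ, h3⟩
    refine ⟨ρ, hρ, σ, hσ, ?_⟩
    show pj D (g ^ k * g') = pj D (ρ * (h ^ l * h') * σ)
    rw [e1, h3, map_mul, map_mul, ← e2, ← map_mul, ← map_mul]

end Pool.Agent.Q223.IS
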