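import Pool.Agent.Q223.IS.DC

set_option autoImplicit false
set_option linter.unusedSectionVars false

/-!
# A torsion-free finitely presented group in which double cosets become conjugacy

`H` is a group with a surjection `p` of the free group `F` on `A`; `K = FreeGroup H ⋊ (F × F)`.
-/

namespace Pool.Agent.Q223.IS

open SemidirectProduct

/-- Torsion-free. -/
def TFn (G : Type) [Group G] : Prop := ∀ (x : G) (n : ℕ), n ≠ 0 → x ^ n = 1 → x = 1

theorem aut_ext {α : Type} {e f : MulAut (FreeGroup α)}
    (h : ∀ a, e (FreeGroup.of a) = f (FreeGroup.of a)) : e = f := by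
  apply MulEquiv.ext
  intro x
  exact DFunLike.congr_fun (FreeGroup.ext_hom (f := e.toMonoidHom) (g := f.toMonoidHom) h) x

section

variable {A H : Type} [Group H] (p : FreeGroup A →* H)

/-- The action of `F × F` on the set `H`. -/
def pm (g : FreeGroup A × FreeGroup A) : H ≃ H where
  toFun h := p g.1 * h * (p g.2)⁻¹
  invFun h := (p g.1)⁻¹ * h * p g.2
  left_inv h := by group
  right_inv h := by group

/-- The action of `F × F` on the free group. -/
def act : FreeGroup A × FreeGroup A →* MulAut (FreeGroup H) where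
  toFun g := FreeGroup.freeGroupCongr (pm p g)
  map_one' := by
    apply aut_ext
    intro h
    simp [pm]
  map_mul' g g' := by
    apply aut_ext
    intro h
    simp [pm, mul_assoc]

theorem act_of (g : FreeGroup A × FreeGroup A) (h : H) :
    act p g (FreeGroup.of h) = FreeGroup.of (p g.1 * h * (p g.2)⁻¹) := by
  simp [act, pm]

/-- The group. -/
abbrev KK : Type := FreeGroup H ⋊[act p] (FreeGroup A × FreeGroup A)

theorem KK_tf : TFn (KK p) := by
  intro x n hn hx
  have h1 : x.right = 1 := by
    have : x.right ^ n = 1 := by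
      have := congrArg SemidirectProduct.rightHom hx
      rw [map_pow, map_one] at this
      exact this
    exact (pow_eq_one_iff_left hn).1 this
  have h2 : x = inl x.left := by
    conv_lhs => rw [← inl_left_mul_inr_right x, h1, map_one, mul_one]
  rw [h2, ← map_pow] at hx
  have h3 : x.left ^ n = 1 := inl_injective (by rw [hx, map_one])
  rw [h2, (pow_eq_one_iff_left hn).1 h3, map_one]

/-- left letters -/
def ka (c : A) : KK p := inr (FreeGroup.of c, 1)

/-- right letters -/
def kb (c : A) : KK p := inr (1, FreeGroup.of c)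

/-- the letter `t` -/
def kt : KK p := inl (FreeGroup.of 1)

/-- left words -/
def wa : FreeGroup A →* KK p := inr.comp (MonoidHom.inl _ _)

/-- right words -/
def wb : FreeGroup A →* KK p := inr.comp (MonoidHom.inr _ _)

theorem wa_of (c : A) : wa p (FreeGroup.of c) = ka p c := rfl

theorem wb_of (c : A) : wb p (FreeGroup.of c) = kb p c := rfl

theorem ka_kb (c d : A) : Commute (ka p c) (kb p d) := by
  show _ * _ = _ * _
  unfold ka kb
  rw [← map_mul, ← map_mul]
  simp

theorem wa_wb (u v : FreeGroup A) : wa p u * wb p v = inr (u, v) := by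
  unfold wa wb
  simp only [MonoidHom.comp_apply]
  rw [← map_mul]
  simp

theorem conj_t (u v : FreeGroup A) :
    wa p u * wb p v * kt p * (wa p u * wb p v)⁻¹ = inl (FreeGroup.of (p u * (p v)⁻¹)) := by
  rw [wa_wb]
  unfold kt
  rw [← map_inv, ← inl_aut, act_of]
  simp

theorem conj_a (u : FreeGroup A) :
    wa p u * kt p * (wa p u)⁻¹ = inl (FreeGroup.of (p u)) := by
  have := conj_t p u 1
  simpa using this

theorem kt_ab (c : A) : Commute (kt p) (ka p c * kb p c) := by
  have h := conj_t p (FreeGroup.of c) (FreeGroup.of c)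
  rw [mul_inv_cancel, wa_of, wb_of] at h
  show _ * _ = _ * _
  rw [mul_inv_eq_iff_eq_mul] at h
  exact h.symm

theorem kt_rel (u : FreeGroup A) (hu : p u = 1) : Commute (kt p) (wa p u) := by
  have h := conj_a p u
  rw [hu, mul_inv_eq_iff_eq_mul] at h
  exact h.symm

/-- The elements `T`. -/
def Tt (u : FreeGroup A) : KK p := wa p u * kt p * (wa p u)⁻¹

theorem Tt_eq (u : FreeGroup A) : Tt p u = inl (FreeGroup.of (p u)) := conj_a p u

theorem Tt_dbl (g h ρ σ : FreeGroup A) (e : p g = p (ρ * h * σ)) :
    Tt p g = wa p ρ * wb p σ⁻¹ * Tt p h * (wa p ρ * wb p σ⁻¹)⁻¹ := by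
  rw [Tt_eq, Tt_eq, e, wa_wb, ← map_inv, ← inl_aut, act_of]
  simp

/-! ### The universal property -/

theorem KK_ext (hp : Function.Surjective p) {G : Type} [Group G] {f f' : KK p →* G}
    (h1 : ∀ c, f (ka p c) = f' (ka p c)) (h2 : ∀ c, f (kb p c) = f' (kb p c))
    (h3 : f (kt p) = f' (kt p)) : f = f' := by
  have e1 : f.comp (wa p) = f'.comp (wa p) := FreeGroup.ext_hom _ _ h1
  have e2 : f.comp (wb p) = f'.comp (wb p) := FreeGroup.ext_hom _ _ h2
  have e1' : ∀ u, f (wa p u) = f' (wa p u) := fun u => DFunLike.congr_fun e1 u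
  have e2' : ∀ u, f (wb p u) = f' (wb p u) := fun u => DFunLike.congr_fun e2 u
  apply SemidirectProduct.hom_ext
  · apply FreeGroup.ext_hom
    intro h
    obtain ⟨u, rfl⟩ := hp h
    show f (inl (FreeGroup.of (p u))) = f' (inl (FreeGroup.of (p u)))
    rw [← conj_a]
    simp only [map_mul, map_inv, e1', h3]
  · apply MonoidHom.ext
    rintro ⟨u, v⟩
    show f (inr (u, v)) = f' (inr (u, v))
    rw [← wa_wb]
    simp only [map_mul, e1', e2']

theorem free_comm {G : Type} [Group G] (f : FreeGroup A →* G) (x : G)
    (h : ∀ c, Commute x (f (FreeGroup.of c))) (u : FreeGroup A) : Commute x (f u) := by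
  induction u using FreeGroup.induction_on with
  | C1 => rw [map_one]; exact Commute.one_right _
  | of c => exact h c
  | inv_of c _ => rw [map_inv]; exact (h c).inv_right
  | mul u v hu hv => rw [map_mul]; exact hu.mul_right hv

end

section

variable {A κ : Type} (rl : κ → FreeGroup A)

/-- The projection. -/
abbrev pr : FreeGroup A →* PresentedGroup (Set.range rl) := PresentedGroup.mk _

theorem pr_surj : Function.Surjective (pr rl) := PresentedGroup.mk_surjective _

theorem KK_lift {G : Type} [Group G] (α β : A → G) (τ : G) (hab : ∀ c d, Commute (α c) (β d))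
    (ht : ∀ c, Commute τ (α c * β c)) (hr : ∀ k, Commute τ (FreeGroup.lift α (rl k))) :
    ∃ Φ : KK (pr rl) →* G, (∀ c, Φ (ka _ c) = α c) ∧ (∀ c, Φ (kb _ c) = β c) ∧ Φ (kt _) = τ := by
  set a := FreeGroup.lift α with ha
  set b := FreeGroup.lift β with hb
  have hab' : ∀ u v, Commute (a u) (b v) := by
    intro u v
    refine free_comm b (a u) (fun c => ?_) v
    refine (free_comm a _ (fun d => ?_) u).symm
    rw [ha, hb, FreeGroup.lift_apply_of, FreeGroup.lift_apply_of]
    exact (hab d c).symm
  let δ : FreeGroup A →* G :=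
    { toFun := fun u => a u * b u
      map_one' := by simp
      map_mul' := by
        intro u v
        rw [map_mul, map_mul]
        have := (hab' v u).eq
        calc a u * a v * (b u * b v) = a u * (a v * b u) * b v := by group
          _ = a u * (b u * a v) * b v := by rw [this]
          _ = _ := by group }
  have hδ : ∀ u, Commute τ (δ u) := by
    intro u
    refine free_comm δ τ (fun c => ?_) u
    show Commute τ (a (FreeGroup.of c) * b (FreeGroup.of c))
    rw [ha, hb, FreeGroup.lift_apply_of, FreeGroup.lift_apply_of]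
    exact ht c
  -- the words which commute with `τ`
  have hconj : ∀ g u, a (g * u * g⁻¹) = δ g * a u * (δ g)⁻¹ := by
    intro g u
    show _ = a g * b g * a u * (a g * b g)⁻¹
    have := (hab' u g).eq
    calc a (g * u * g⁻¹) = a g * (a u * b g) * (b g)⁻¹ * (a g)⁻¹ := by
          rw [map_mul, map_mul, map_inv]; group
      _ = a g * (b g * a u) * (b g)⁻¹ * (a g)⁻¹ := by rw [this]
      _ = _ := by group
  let N : Subgroup (FreeGroup A) :=
    { carrier := {u | Commute τ (a u)}
      one_mem' := by
        show Commute _ _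
        rw [map_one]; exact Commute.one_right _
      mul_mem' := by
        intro u v hu hv
        have hu' : Commute _ _ := hu
        have hv' : Commute _ _ := hv
        show Commute _ _
        rw [map_mul]; exact hu'.mul_right hv'
      inv_mem' := by
        intro u hu
        have hu' : Commute _ _ := hu
        show Commute _ _
        rw [map_inv]; exact hu'.inv_right }
  have hN : N.Normal := by
    constructor
    intro u hu g
    have hu' : Commute _ _ := hu
    show Commute _ _
    rw [hconj]
    exact ((hδ g).mul_right hu').mul_right (hδ g).inv_right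
  have hker : ∀ u, pr rl u = 1 → Commute τ (a u) := by
    intro u hu
    have h1 : u ∈ Subgroup.normalClosure (Set.range rl) := by
      rw [← QuotientGroup.eq_one_iff]
      exact hu
    have h2 : Subgroup.normalClosure (Set.range rl) ≤ N := by
      apply Subgroup.normalClosure_le_normal
      rintro _ ⟨k, rfl⟩
      exact hr k
    exact h2 h1
  -- the image of the free generators
  let sec : PresentedGroup (Set.range rl) → FreeGroup A := Function.surjInv (pr_surj rl)
  have hsec : ∀ h, pr rl (sec h) = h := Function.surjInv_eq (pr_surj rl)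
  have hkey : ∀ u, a (sec (pr rl u)) * τ * (a (sec (pr rl u)))⁻¹ = a u * τ * (a u)⁻¹ := by
    intro u
    have h1 : pr rl (u⁻¹ * sec (pr rl u)) = 1 := by
      rw [map_mul, map_inv, hsec, inv_mul_cancel]
    have h2 := (hker _ h1).eq
    have h3 : sec (pr rl u) = u * (u⁻¹ * sec (pr rl u)) := by group
    generalize u⁻¹ * sec (pr rl u) = w at h2 h3
    rw [h3, map_mul]
    calc a u * a w * τ * (a u * a w)⁻¹ = a u * (a w * τ) * (a w)⁻¹ * (a u)⁻¹ := by group
      _ = a u * (τ * a w) * (a w)⁻¹ * (a u)⁻¹ := by rw [h2]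
      _ = _ := by group
  let ψ : FreeGroup (PresentedGroup (Set.range rl)) →* G :=
    FreeGroup.lift (fun h => a (sec h) * τ * (a (sec h))⁻¹)
  have hψ : ∀ u, ψ (FreeGroup.of (pr rl u)) = a u * τ * (a u)⁻¹ := by
    intro u
    show FreeGroup.lift _ _ = _
    rw [FreeGroup.lift_apply_of, hkey]
  let χ : FreeGroup A × FreeGroup A →* G := MonoidHom.noncommCoprod a b hab'
  have hχ : ∀ u v, χ (u, v) = a u * b v := fun u v => MonoidHom.noncommCoprod_apply _ _ _ _
  have hcomp : ∀ g, ψ.comp (act (pr rl) g).toMonoidHom =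
      (MulAut.conj (χ g)).toMonoidHom.comp ψ := by
    rintro ⟨u, v⟩
    apply FreeGroup.ext_hom
    intro h
    obtain ⟨w, rfl⟩ := pr_surj rl h
    show ψ (act (pr rl) (u, v) (FreeGroup.of (pr rl w))) =
      χ (u, v) * ψ (FreeGroup.of (pr rl w)) * (χ (u, v))⁻¹
    rw [act_of, hψ, hχ]
    simp only
    rw [← map_inv, ← map_mul, ← map_mul, hψ]
    have h1 := (hδ v).eq
    have h1' : τ * (a v * b v) = a v * b v * τ := h1
    have h2 := (hab' w v).eq
    have h3 : b v * τ * (b v)⁻¹ = (a v)⁻¹ * τ * a v := by
      have : b v * τ = (a v)⁻¹ * (a v * b v * τ) := by group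
      rw [this, ← h1']
      group
    rw [map_mul, map_mul, map_inv]
    calc a u * a w * (a v)⁻¹ * τ * (a u * a w * (a v)⁻¹)⁻¹
        = a u * a w * ((a v)⁻¹ * τ * a v) * (a w)⁻¹ * (a u)⁻¹ := by group
      _ = a u * a w * (b v * τ * (b v)⁻¹) * (a w)⁻¹ * (a u)⁻¹ := by rw [h3]
      _ = a u * (a w * b v) * τ * (a w * b v)⁻¹ * (a u)⁻¹ := by group
      _ = a u * (b v * a w) * τ * (b v * a w)⁻¹ * (a u)⁻¹ := by rw [h2]
      _ = a u * b v * (a w * τ * (a w)⁻¹) * (a u * b v)⁻¹ := by group
  refine ⟨SemidirectProduct.lift ψ χ hcomp, ?_, ?_, ?_⟩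
  · intro c
    unfold ka
    rw [SemidirectProduct.lift_inr, hχ, map_one, mul_one, ha, FreeGroup.lift_apply_of]
  · intro c
    unfold kb
    rw [SemidirectProduct.lift_inr, hχ, map_one, one_mul, hb, FreeGroup.lift_apply_of]
  · unfold kt
    rw [SemidirectProduct.lift_inl]
    have := hψ 1
    rw [map_one, map_one, one_mul, inv_one, mul_one] at this
    exact this

end

end Pool.Agent.Q223.IS
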