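import Pool.Agent.Q223.IS.Code

set_option autoImplicit false
set_option linter.unusedSectionVars false

/-!
# Isomorphism of finite presentations is computably enumerable

The general lemmas `pp_ball`, `pp_bex`, `pp_eq`, `re_exists` and the computability of the free
reduction are copied from the module `Pool.Agent.H169R3.FI.Comp` of the starting library.
-/

namespace Pool.Agent.Q223.IS

section General

variable {α β γ : Type*} [Primcodable α] [Primcodable β] [Primcodable γ]

theorem pp_ball {f : α → List β} {R : α → β → Prop} (hf : Primrec f)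
    (hR : PrimrecPred fun x : α × β => R x.1 x.2) : PrimrecPred fun a => ∀ b ∈ f a, R a b := by
  have h1 : PrimrecRel fun (b : β) (a : α) => R a b :=
    hR.comp (Primrec.pair Primrec.snd Primrec.fst)
  exact (PrimrecRel.forall_mem_list h1).comp hf Primrec.id

theorem pp_bex {f : α → List β} {R : α → β → Prop} (hf : Primrec f)
    (hR : PrimrecPred fun x : α × β => R x.1 x.2) : PrimrecPred fun a => ∃ b ∈ f a, R a b := by
  have h1 : PrimrecRel fun (b : β) (a : α) => R a b :=
    hR.comp (Primrec.pair Primrec.snd Primrec.fst)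
  exact (PrimrecRel.exists_mem_list h1).comp hf Primrec.id

theorem pp_eq {f g : α → β} (hf : Primrec f) (hg : Primrec g) : PrimrecPred fun a => f a = g a :=
  Primrec.eq.comp hf hg

theorem re_exists {R : α → β → Prop} (hR : PrimrecPred fun x : α × β => R x.1 x.2) :
    REPred fun a => ∃ b, R a b := by
  classical
  have h1 : Primrec₂ fun (a : α) (n : ℕ) =>
      ((Encodable.decode (α := β) n).map fun b => decide (R a b)).getD false := by
    have h2 : Primrec₂ fun (a : α) (n : ℕ) =>
        ((Encodable.decode (α := β) n).map fun b => decide (R a b)) := by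
      apply Primrec.option_map (Primrec.decode.comp Primrec.snd)
      have h3 : Primrec fun x : α × β => decide (R x.1 x.2) := hR.decide
      exact h3.comp (Primrec.pair (Primrec.fst.comp Primrec.fst) Primrec.snd)
    exact Primrec.option_getD.comp h2 (Primrec.const false)
  have h4 : Partrec fun a : α => Nat.rfind fun n => Part.some
      (((Encodable.decode (α := β) n).map fun b => decide (R a b)).getD false) :=
    Partrec.rfind h1.to_comp.partrec
  refine (h4.dom_re).of_eq ?_
  intro a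
  refine Iff.trans Nat.rfind_dom ?_
  constructor
  · rintro ⟨n, hn, _⟩
    rw [Part.mem_some_iff] at hn
    cases hd : (Encodable.decode (α := β) n) with
    | none => rw [hd] at hn; simp at hn
    | some b =>
      rw [hd] at hn
      exact ⟨b, by simpa using hn.symm⟩
  · rintro ⟨b, hb⟩
    refine ⟨Encodable.encode b, ?_, fun _ => trivial⟩
    rw [Part.mem_some_iff, Encodable.encodek]
    simpa using hb

end General

theorem reduce_eq_foldr (w : Wd) : FreeGroup.reduce w = w.foldr (fun x r =>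
    List.casesOn (motive := fun _ => Wd) r [x] fun hd tl =>
      if x.1 = hd.1 ∧ x.2 = !hd.2 then tl else x :: hd :: tl) [] := by
  induction w with
  | nil => rfl
  | cons x w ih =>
    rw [FreeGroup.reduce.cons, List.foldr_cons, ← ih]

theorem reduce_pr : Primrec (FreeGroup.reduce : Wd → Wd) := by
  have h : Primrec fun w : Wd => w.foldr (fun x r =>
    List.casesOn (motive := fun _ => Wd) r [x] fun hd tl =>
      if x.1 = hd.1 ∧ x.2 = !hd.2 then tl else x :: hd :: tl) [] := by
    apply Primrec.list_foldr (h := fun (_ : Wd) (y : (ℕ × Bool) × Wd) =>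
      List.casesOn (motive := fun _ => Wd) y.2 [y.1] fun hd tl =>
      if y.1.1 = hd.1 ∧ y.1.2 = !hd.2 then tl else y.1 :: hd :: tl) Primrec.id (Primrec.const [])
    show Primrec fun z : Wd × ((ℕ × Bool) × Wd) => List.casesOn (motive := fun _ => Wd) z.2.2 [z.2.1]
      fun hd tl => if z.2.1.1 = hd.1 ∧ z.2.1.2 = !hd.2 then tl else z.2.1 :: hd :: tl
    have hx : Primrec fun z : Wd × ((ℕ × Bool) × Wd) => z.2.1 := Primrec.fst.comp Primrec.snd
    have hr : Primrec fun z : Wd × ((ℕ × Bool) × Wd) => z.2.2 := Primrec.snd.comp Primrec.snd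
    apply Primrec.list_casesOn (h := fun (z : Wd × ((ℕ × Bool) × Wd)) (y : (ℕ × Bool) × Wd) =>
      if z.2.1.1 = y.1.1 ∧ z.2.1.2 = !y.1.2 then y.2 else z.2.1 :: y.1 :: y.2) hr
      (Primrec.list_cons.comp hx (Primrec.const []))
    show Primrec fun u : (Wd × ((ℕ × Bool) × Wd)) × ((ℕ × Bool) × Wd) =>
      if u.1.2.1.1 = u.2.1.1 ∧ u.1.2.1.2 = !u.2.1.2 then u.2.2 else u.1.2.1 :: u.2.1 :: u.2.2
    have hx' : Primrec fun u : (Wd × ((ℕ × Bool) × Wd)) × ((ℕ × Bool) × Wd) => u.1.2.1 :=
      hx.comp Primrec.fst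
    have hy : Primrec fun u : (Wd × ((ℕ × Bool) × Wd)) × ((ℕ × Bool) × Wd) => u.2.1 :=
      Primrec.fst.comp Primrec.snd
    have ht : Primrec fun u : (Wd × ((ℕ × Bool) × Wd)) × ((ℕ × Bool) × Wd) => u.2.2 :=
      Primrec.snd.comp Primrec.snd
    apply Primrec.ite
    · exact (pp_eq (Primrec.fst.comp hx') (Primrec.fst.comp hy)).and
        (pp_eq (Primrec.snd.comp hx') (Primrec.not.comp (Primrec.snd.comp hy)))
    · exact ht
    · exact Primrec.list_cons.comp hx' (Primrec.list_cons.comp hy ht)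
  exact h.of_eq fun w => (reduce_eq_foldr w).symm

/-! ### Certificates of triviality -/

/-- Certificates. -/
abbrev Ct : Type := List (Wd × Wd × Bool)

/-- The word of a certificate. -/
def ctw (c : Ct) : Wd :=
  c.flatMap (fun t => t.1 ++ (if t.2.2 = true then t.2.1 else FreeGroup.invRev t.2.1) ++
    FreeGroup.invRev t.1)

/-- The word is an admissible relator of the code. -/
def Adm (b : ℕ × List Wd) (w : Wd) : Prop :=
  (∃ v ∈ b.2, v = w) ∨ (∃ q ∈ w, b.1 ≤ q.1 ∧ w = [(q.1, true)])

/-- `c` shows that `w` is trivial. -/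
def Chk (b : ℕ × List Wd) (w : Wd) (c : Ct) : Prop :=
  (∀ t ∈ c, Adm b t.2.1) ∧ FreeGroup.reduce w = FreeGroup.reduce (ctw c)

theorem adm_ev {b : ℕ × List Wd} {w : Wd} (h : Adm b w) {M : Type} [Group M] {x : ℕ → M}
    (hx : ∀ i, b.1 ≤ i → x i = 1) (hr : ∀ w ∈ b.2, ev x w = 1) : ev x w = 1 := by
  rcases h with ⟨v, hv, rfl⟩ | ⟨q, -, h1, h2⟩
  · exact hr v hv
  · rw [h2, ev_true, hx _ h1]

theorem ev_ctw {b : ℕ × List Wd} {M : Type} [Group M] {x : ℕ → M}
    (hx : ∀ i, b.1 ≤ i → x i = 1) (hr : ∀ w ∈ b.2, ev x w = 1) (c : Ct)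
    (hc : ∀ t ∈ c, Adm b t.2.1) : ev x (ctw c) = 1 := by
  induction c with
  | nil => exact ev_nil x
  | cons t c ih =>
    have h1 := adm_ev (hc t List.mem_cons_self) hx hr
    have h2 := ih (fun t ht => hc t (List.mem_cons_of_mem _ ht))
    have : ctw (t :: c) = (t.1 ++ (if t.2.2 = true then t.2.1 else FreeGroup.invRev t.2.1) ++
      FreeGroup.invRev t.1) ++ ctw c := rfl
    rw [this, ev_append, h2, mul_one, ev_append, ev_append, ev_inv]
    have h3 : ev x (if t.2.2 = true then t.2.1 else FreeGroup.invRev t.2.1) = 1 := by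
      split_ifs
      · exact h1
      · rw [ev_inv, h1, inv_one]
    rw [h3, mul_one, mul_inv_cancel]

theorem ev_of_reduce {M : Type} [Group M] (x : ℕ → M) {u v : Wd}
    (h : FreeGroup.reduce u = FreeGroup.reduce v) : ev x u = ev x v := by
  unfold ev
  rw [FreeGroup.reduce.exact h]

theorem mk_ctw_append (c c' : Ct) :
    (FreeGroup.mk (ctw (c ++ c')) : FreeGroup ℕ) = FreeGroup.mk (ctw c) * FreeGroup.mk (ctw c') := by
  unfold ctw
  rw [List.flatMap_append, FreeGroup.mul_mk]

theorem mk_ctw_cons (t) (c : Ct) :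
    (FreeGroup.mk (ctw (t :: c)) : FreeGroup ℕ) = FreeGroup.mk t.1 *
      (if t.2.2 = true then FreeGroup.mk t.2.1 else (FreeGroup.mk t.2.1)⁻¹) *
      (FreeGroup.mk t.1)⁻¹ * FreeGroup.mk (ctw c) := by
  have : ctw (t :: c) = (t.1 ++ (if t.2.2 = true then t.2.1 else FreeGroup.invRev t.2.1) ++
      FreeGroup.invRev t.1) ++ ctw c := rfl
  rw [this, ← FreeGroup.mul_mk, ← FreeGroup.mul_mk, ← FreeGroup.mul_mk, FreeGroup.inv_mk]
  congr 3
  split_ifs
  · rfl
  · rfl

/-- The words with certificates form a normal subgroup. -/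
def cerN (b : ℕ × List Wd) : Subgroup (FreeGroup ℕ) where
  carrier := {g | ∃ c : Ct, (∀ t ∈ c, Adm b t.2.1) ∧ g = FreeGroup.mk (ctw c)}
  one_mem' := ⟨[], by simp, rfl⟩
  mul_mem' := by
    rintro _ _ ⟨c, hc, rfl⟩ ⟨c', hc', rfl⟩
    refine ⟨c ++ c', ?_, (mk_ctw_append c c').symm⟩
    intro t ht
    rcases List.mem_append.1 ht with h | h
    · exact hc t h
    · exact hc' t h
  inv_mem' := by
    rintro _ ⟨c, hc, rfl⟩
    induction c with
    | nil => exact ⟨[], by simp, by simp [ctw]⟩
    | cons t c ih =>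
      obtain ⟨d, hd, h⟩ := ih (fun t ht => hc t (List.mem_cons_of_mem _ ht))
      refine ⟨d ++ [(t.1, t.2.1, !t.2.2)], ?_, ?_⟩
      · intro t' ht'
        rcases List.mem_append.1 ht' with h' | h'
        · exact hd t' h'
        · rw [List.mem_singleton.1 h']
          exact hc t List.mem_cons_self
      · rw [mk_ctw_append, mk_ctw_cons, mk_ctw_cons, ← h]
        have : (FreeGroup.mk (ctw []) : FreeGroup ℕ) = 1 := rfl
        rw [this]
        cases t.2.2 <;> simp

theorem cerN_normal (b : ℕ × List Wd) : (cerN b).Normal := by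
  constructor
  rintro _ ⟨c, hc, rfl⟩ g
  induction c with
  | nil =>
    refine ⟨[], by simp, ?_⟩
    have : (FreeGroup.mk (ctw []) : FreeGroup ℕ) = 1 := rfl
    rw [this]
    group
  | cons t c ih =>
    obtain ⟨d, hd, h⟩ := ih (fun t ht => hc t (List.mem_cons_of_mem _ ht))
    refine ⟨((g * FreeGroup.mk t.1).toWord, t.2.1, t.2.2) :: d, ?_, ?_⟩
    · intro t' ht'
      rcases List.mem_cons.1 ht' with rfl | h'
      · exact hc t List.mem_cons_self
      · exact hd t' h'
    · rw [mk_ctw_cons, mk_ctw_cons, ← h]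
      simp only [FreeGroup.mk_toWord]
      group

theorem triv_iff (b : ℕ × List Wd) (w : Wd) : ev (gen b) w = 1 ↔ ∃ c, Chk b w c := by
  constructor
  · intro h
    have := cerN_normal b
    let x : ℕ → FreeGroup ℕ ⧸ cerN b := fun i => (FreeGroup.of i : FreeGroup ℕ)
    have hx : ∀ u : Wd, ev x u = ((FreeGroup.mk u : FreeGroup ℕ) : FreeGroup ℕ ⧸ cerN b) := by
      intro u
      unfold ev
      have : FreeGroup.lift x = QuotientGroup.mk' (cerN b) := by
        apply FreeGroup.ext_hom
        intro i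
        rw [FreeGroup.lift_apply_of]
        rfl
      rw [this]
      rfl
    have hA : ∀ w, Adm b w → ev x w = 1 := by
      intro w hw
      rw [hx, QuotientGroup.eq_one_iff]
      refine ⟨[([], w, true)], ?_, ?_⟩
      · intro t ht
        rw [List.mem_singleton.1 ht]
        exact hw
      · rw [mk_ctw_cons]
        have : (FreeGroup.mk (ctw []) : FreeGroup ℕ) = 1 := rfl
        rw [this, ← FreeGroup.one_eq_mk]
        simp
    obtain ⟨F, hF⟩ := PG_lift b x (by
      intro i hi
      have := hA [(i, true)] (Or.inr ⟨(i, true), by simp, hi, rfl⟩)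
      rw [ev_true] at this
      exact this) (fun w hw => hA w (Or.inl ⟨w, hw, rfl⟩))
    have h1 := congrArg F h
    rw [ev_map, map_one] at h1
    have h2 : ev x w = 1 := by
      rw [← h1]
      congr 1
      funext i
      exact (hF i).symm
    rw [hx, QuotientGroup.eq_one_iff] at h2
    obtain ⟨c, hc, hc'⟩ := h2
    exact ⟨c, hc, FreeGroup.reduce.sound hc'⟩
  · rintro ⟨c, hc, hc'⟩
    rw [ev_of_reduce _ hc']
    exact ev_ctw (fun i hi => gen_big b hi) (fun w hw => PG_rel b hw) c hc

theorem certs (b : ℕ × List Wd) (W : List Wd) (hW : ∀ w ∈ W, ev (gen b) w = 1) :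
    ∃ C : List (Wd × Ct), (∀ t ∈ C, Chk b t.1 t.2) ∧ ∀ w ∈ W, ∃ t ∈ C, t.1 = w := by
  induction W with
  | nil => exact ⟨[], by simp, by simp⟩
  | cons w W ih =>
    obtain ⟨C, h1, h2⟩ := ih (fun w hw => hW w (List.mem_cons_of_mem _ hw))
    obtain ⟨c, hc⟩ := (triv_iff b w).1 (hW w List.mem_cons_self)
    refine ⟨(w, c) :: C, ?_, ?_⟩
    · intro t ht
      rcases List.mem_cons.1 ht with rfl | ht
      · exact hc
      · exact h1 t ht
    · intro w' hw'
      rcases List.mem_cons.1 hw' with rfl | hw'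
      · exact ⟨_, List.mem_cons_self, rfl⟩
      · obtain ⟨t, ht, h⟩ := h2 w' hw'
        exact ⟨t, List.mem_cons_of_mem _ ht, h⟩

/-- The letter of an assignment. -/
def ltr (U : List Wd) (q : ℕ × Bool) : Wd :=
  if q.2 = true then U.getD q.1 [] else FreeGroup.invRev (U.getD q.1 [])

/-- Substitution. -/
def sub (U : List Wd) (w : Wd) : Wd := w.flatMap (ltr U)

theorem ev_sub {M : Type} [Group M] (x : ℕ → M) (U : List Wd) (w : Wd) :
    ev x (sub U w) = ev (fun i => ev x (U.getD i [])) w := by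
  induction w with
  | nil => rfl
  | cons q w ih =>
    have : sub U (q :: w) = ltr U q ++ sub U w := rfl
    rw [this, ev_append, ih, ev_cons _ q w]
    congr 1
    obtain ⟨i, b⟩ := q
    cases b
    · show ev x (FreeGroup.invRev (U.getD i [])) = _
      rw [ev_inv]
      unfold ev
      simp
    · rw [ev_true]
      rfl

/-- The certificates of isomorphism. -/
abbrev IC : Type := (List Wd × List Wd) × (List (Wd × Ct) × List (Wd × Ct))

/-- One half of the check. -/
def Hf (a b : ℕ × List Wd) (U V : List Wd) (C C' : List (Wd × Ct)) : Prop :=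
  U.length ≤ a.1 ∧ (∀ t ∈ C, Chk b t.1 t.2) ∧ (∀ w ∈ a.2, ∃ t ∈ C, t.1 = sub U w) ∧
    (∀ i ∈ List.range a.1, ∃ t ∈ C', t.1 = sub V (U.getD i []) ++ [(i, false)])

theorem ev_false {M : Type} [Group M] (x : ℕ → M) (i : ℕ) : ev x [(i, false)] = (x i)⁻¹ := by
  unfold ev
  simp

theorem half_lift {a b : ℕ × List Wd} {U V : List Wd} {C C' : List (Wd × Ct)}
    (h : Hf a b U V C C') :
    ∃ F : PG a →* PG b, ∀ i, F (gen a i) = ev (gen b) (U.getD i []) := by
  obtain ⟨h1, h2, h3, -⟩ := h
  apply PG_lift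
  · intro i hi
    rw [List.getD_eq_default _ _ (le_trans h1 hi), ev_nil]
  · intro w hw
    obtain ⟨t, ht, e⟩ := h3 w hw
    rw [← ev_sub, ← e]
    exact (triv_iff b t.1).2 ⟨t.2, h2 t ht⟩

theorem gen_word (b : ℕ × List Wd) (y : PG b) : ∃ w, ev (gen b) w = y := by
  have h1 : (FreeGroup.lift (gen b)).range = ⊤ := by
    rw [eq_top_iff, ← PresentedGroup.closure_range_of, Subgroup.closure_le]
    rintro _ ⟨i, rfl⟩
    refine ⟨FreeGroup.of i.1, ?_⟩
    rw [FreeGroup.lift_apply_of]
    unfold gen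
    rw [dif_pos i.2]
  obtain ⟨g, hg⟩ : y ∈ (FreeGroup.lift (gen b)).range := by rw [h1]; trivial
  refine ⟨g.toWord, ?_⟩
  unfold ev
  rw [FreeGroup.mk_toWord, hg]

/-- The words of an isomorphism. -/
theorem half_words (a b : ℕ × List Wd) (F : PG a →* PG b) :
    ∃ U : List Wd, U.length ≤ a.1 ∧ ∀ i, ev (gen b) (U.getD i []) = F (gen a i) := by
  choose u hu using fun i => gen_word b (F (gen a i))
  refine ⟨(List.range a.1).map u, by simp, ?_⟩
  intro i
  rcases Nat.lt_or_ge i a.1 with h | h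
  · rw [List.getD_eq_getElem _ _ (by simpa using h)]
    simp [hu]
  · rw [List.getD_eq_default _ _ (by simpa using h), ev_nil, gen_big a h, map_one]

theorem iso_iff (a b : ℕ × List Wd) : Nonempty (PG a ≃* PG b) ↔
    ∃ c : IC, Hf a b c.1.1 c.1.2 c.2.1 c.2.2 ∧ Hf b a c.1.2 c.1.1 c.2.2 c.2.1 := by
  constructor
  · rintro ⟨e⟩
    obtain ⟨U, hU, hU'⟩ := half_words a b e.toMonoidHom
    obtain ⟨V, hV, hV'⟩ := half_words b a e.symm.toMonoidHom
    have h1 : ∀ w, ev (gen b) (sub U w) = e (ev (gen a) w) := by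
      intro w
      rw [ev_sub]
      have := ev_map (gen a) e.toMonoidHom w
      refine Eq.trans ?_ this.symm
      congr 1
      funext i
      exact hU' i
    have h2 : ∀ w, ev (gen a) (sub V w) = e.symm (ev (gen b) w) := by
      intro w
      rw [ev_sub]
      have := ev_map (gen b) e.symm.toMonoidHom w
      refine Eq.trans ?_ this.symm
      congr 1
      funext i
      exact hV' i
    obtain ⟨C, hC1, hC2⟩ := certs b (a.2.map (sub U) ++
      (List.range b.1).map (fun i => sub U (V.getD i []) ++ [(i, false)])) (by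
      intro w hw
      rcases List.mem_append.1 hw with hw | hw
      · obtain ⟨w', hw', rfl⟩ := List.mem_map.1 hw
        rw [h1, PG_rel a hw', map_one]
      · obtain ⟨i, -, rfl⟩ := List.mem_map.1 hw
        rw [ev_append, h1, ev_false, hV']
        show e (e.symm (gen b i)) * _ = 1
        rw [MulEquiv.apply_symm_apply, mul_inv_cancel])
    obtain ⟨C', hC1', hC2'⟩ := certs a (b.2.map (sub V) ++
      (List.range a.1).map (fun i => sub V (U.getD i []) ++ [(i, false)])) (by
      intro w hw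
      rcases List.mem_append.1 hw with hw | hw
      · obtain ⟨w', hw', rfl⟩ := List.mem_map.1 hw
        rw [h2, PG_rel b hw', map_one]
      · obtain ⟨i, -, rfl⟩ := List.mem_map.1 hw
        rw [ev_append, h2, ev_false, hU']
        show e.symm (e (gen a i)) * _ = 1
        rw [MulEquiv.symm_apply_apply, mul_inv_cancel])
    refine ⟨((U, V), (C, C')), ⟨hU, hC1, ?_, ?_⟩, ⟨hV, hC1', ?_, ?_⟩⟩
    · intro w hw
      exact hC2 _ (List.mem_append_left _ (List.mem_map_of_mem hw))
    · intro i hi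
      exact hC2' _ (List.mem_append_right _ (List.mem_map.2 ⟨i, hi, rfl⟩))
    · intro w hw
      exact hC2' _ (List.mem_append_left _ (List.mem_map_of_mem hw))
    · intro i hi
      exact hC2 _ (List.mem_append_right _ (List.mem_map.2 ⟨i, hi, rfl⟩))
  · rintro ⟨⟨⟨U, V⟩, ⟨C, C'⟩⟩, h1, h2⟩
    have key : ∀ {a b : ℕ × List Wd} {U V : List Wd} {C C' : List (Wd × Ct)}
        (_ : Hf a b U V C C') (_ : Hf b a V U C' C) {F : PG a →* PG b} {F' : PG b →* PG a}
        (_ : ∀ i, F (gen a i) = ev (gen b) (U.getD i []))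
        (_ : ∀ i, F' (gen b i) = ev (gen a) (V.getD i [])), F'.comp F = MonoidHom.id _ := by
      intro a b U V C C' h1 h2 F F' hF hF'
      apply PG_ext
      intro i
      show F' (F (gen a i)) = gen a i
      rcases Nat.lt_or_ge i a.1 with h | h
      · rw [hF, ev_map]
        have e1 : (fun i => F' (gen b i)) = fun i => ev (gen a) (V.getD i []) := funext hF'
        rw [e1, ← ev_sub]
        obtain ⟨t, ht, ht'⟩ := h1.2.2.2 i (List.mem_range.2 h)
        have h3 := (triv_iff a t.1).2 ⟨t.2, h2.2.1 t ht⟩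
        rw [ht', ev_append, ev_false, mul_inv_eq_one] at h3
        exact h3
      · rw [gen_big a h, map_one, map_one]
    obtain ⟨F, hF⟩ := half_lift h1
    obtain ⟨F', hF'⟩ := half_lift h2
    exact ⟨MonoidHom.toMulEquiv F F' (key h1 h2 hF hF') (key h2 h1 hF' hF)⟩

/-! ### Computability -/

theorem ctw_pr : Primrec ctw := by
  unfold ctw
  apply Primrec.list_flatMap Primrec.id
  have ht : Primrec fun x : Ct × (Wd × Wd × Bool) => x.2 := Primrec.snd
  have h1 : Primrec fun x : Ct × (Wd × Wd × Bool) => x.2.1 := Primrec.fst.comp ht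
  have h2 : Primrec fun x : Ct × (Wd × Wd × Bool) => x.2.2.1 :=
    Primrec.fst.comp (Primrec.snd.comp ht)
  have h3 : Primrec fun x : Ct × (Wd × Wd × Bool) => x.2.2.2 :=
    Primrec.snd.comp (Primrec.snd.comp ht)
  exact Primrec.list_append.comp (Primrec.list_append.comp h1
    (Primrec.ite (pp_eq h3 (Primrec.const true)) h2 (invRev_pr.comp h2))) (invRev_pr.comp h1)

theorem adm_pr : PrimrecPred fun x : (ℕ × List Wd) × Wd => Adm x.1 x.2 := by
  unfold Adm
  refine PrimrecPred.or ?_ ?_
  · exact pp_bex (Primrec.snd.comp Primrec.fst) (pp_eq Primrec.snd (Primrec.snd.comp Primrec.fst))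
  · refine pp_bex Primrec.snd ?_
    refine PrimrecPred.and ?_ ?_
    · exact Primrec.nat_le.comp (Primrec.fst.comp (Primrec.fst.comp Primrec.fst))
        (Primrec.fst.comp Primrec.snd)
    · exact pp_eq (Primrec.snd.comp Primrec.fst) (lt_pr (Primrec.fst.comp Primrec.snd))

theorem chk_pr : PrimrecPred fun x : (ℕ × List Wd) × (Wd × Ct) => Chk x.1 x.2.1 x.2.2 := by
  unfold Chk
  refine PrimrecPred.and ?_ ?_
  · refine pp_ball (Primrec.snd.comp Primrec.snd) ?_
    exact adm_pr.comp (Primrec.pair (Primrec.fst.comp Primrec.fst)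
      (Primrec.fst.comp (Primrec.snd.comp Primrec.snd)))
  · exact pp_eq (reduce_pr.comp (Primrec.fst.comp Primrec.snd))
      (reduce_pr.comp (ctw_pr.comp (Primrec.snd.comp Primrec.snd)))

theorem ltr_pr : Primrec₂ ltr := by
  have h : Primrec fun x : List Wd × (ℕ × Bool) => x.1.getD x.2.1 [] :=
    (Primrec.list_getD []).comp Primrec.fst (Primrec.fst.comp Primrec.snd)
  show Primrec fun x : List Wd × (ℕ × Bool) => if x.2.2 = true then x.1.getD x.2.1 [] else
    FreeGroup.invRev (x.1.getD x.2.1 [])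
  exact Primrec.ite (pp_eq (Primrec.snd.comp Primrec.snd) (Primrec.const true)) h
    (invRev_pr.comp h)

theorem sub_pr : Primrec₂ sub := by
  show Primrec fun x : List Wd × Wd => x.2.flatMap (ltr x.1)
  apply Primrec.list_flatMap Primrec.snd
  exact ltr_pr.comp (Primrec.fst.comp Primrec.fst) Primrec.snd

theorem half_pr : PrimrecPred fun x : ((ℕ × List Wd) × (ℕ × List Wd)) × IC =>
    Hf x.1.1 x.1.2 x.2.1.1 x.2.1.2 x.2.2.1 x.2.2.2 := by
  unfold Hf
  have ha : Primrec fun x : ((ℕ × List Wd) × (ℕ × List Wd)) × IC => x.1.1 :=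
    Primrec.fst.comp Primrec.fst
  have hb : Primrec fun x : ((ℕ × List Wd) × (ℕ × List Wd)) × IC => x.1.2 :=
    Primrec.snd.comp Primrec.fst
  have hU : Primrec fun x : ((ℕ × List Wd) × (ℕ × List Wd)) × IC => x.2.1.1 :=
    Primrec.fst.comp (Primrec.fst.comp Primrec.snd)
  have hV : Primrec fun x : ((ℕ × List Wd) × (ℕ × List Wd)) × IC => x.2.1.2 :=
    Primrec.snd.comp (Primrec.fst.comp Primrec.snd)
  have hC : Primrec fun x : ((ℕ × List Wd) × (ℕ × List Wd)) × IC => x.2.2.1 :=
    Primrec.fst.comp (Primrec.snd.comp Primrec.snd)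
  have hC' : Primrec fun x : ((ℕ × List Wd) × (ℕ × List Wd)) × IC => x.2.2.2 :=
    Primrec.snd.comp (Primrec.snd.comp Primrec.snd)
  refine PrimrecPred.and ?_ (PrimrecPred.and ?_ (PrimrecPred.and ?_ ?_))
  · exact Primrec.nat_le.comp (Primrec.list_length.comp hU) (Primrec.fst.comp ha)
  · refine pp_ball hC ?_
    exact chk_pr.comp (Primrec.pair (hb.comp Primrec.fst) Primrec.snd)
  · refine pp_ball (Primrec.snd.comp ha) ?_
    refine pp_bex (hC.comp Primrec.fst) ?_
    exact pp_eq (Primrec.fst.comp Primrec.snd) (sub_pr.comp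
      (hU.comp (Primrec.fst.comp Primrec.fst)) (Primrec.snd.comp Primrec.fst))
  · refine pp_ball (Primrec.list_range.comp (Primrec.fst.comp ha)) ?_
    refine pp_bex (hC'.comp Primrec.fst) ?_
    refine pp_eq (Primrec.fst.comp Primrec.snd) ?_
    refine Primrec.list_append.comp (sub_pr.comp (hV.comp (Primrec.fst.comp Primrec.fst))
      ((Primrec.list_getD []).comp (hU.comp (Primrec.fst.comp Primrec.fst))
        (Primrec.snd.comp Primrec.fst))) ?_
    exact Primrec.list_cons.comp (Primrec.pair (Primrec.snd.comp Primrec.fst)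
      (Primrec.const false)) (Primrec.const [])

theorem iso_re : REPred fun p : (ℕ × List Wd) × (ℕ × List Wd) =>
    Nonempty (PG p.1 ≃* PG p.2) := by
  refine REPred.of_eq (re_exists (β := IC) (R := fun p c =>
    Hf p.1 p.2 c.1.1 c.1.2 c.2.1 c.2.2 ∧ Hf p.2 p.1 c.1.2 c.1.1 c.2.2 c.2.1) ?_)
    (fun p => (iso_iff p.1 p.2).symm)
  refine PrimrecPred.and half_pr ?_
  have h : Primrec fun x : ((ℕ × List Wd) × (ℕ × List Wd)) × IC =>
      ((((x.1.2, x.1.1) : (ℕ × List Wd) × (ℕ × List Wd)),
        (((x.2.1.2, x.2.1.1), (x.2.2.2, x.2.2.1)) : IC)) :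
        ((ℕ × List Wd) × (ℕ × List Wd)) × IC) := by
    refine Primrec.pair (Primrec.pair (Primrec.snd.comp Primrec.fst)
      (Primrec.fst.comp Primrec.fst)) (Primrec.pair (Primrec.pair ?_ ?_) (Primrec.pair ?_ ?_))
    · exact Primrec.snd.comp (Primrec.fst.comp Primrec.snd)
    · exact Primrec.fst.comp (Primrec.fst.comp Primrec.snd)
    · exact Primrec.snd.comp (Primrec.snd.comp Primrec.snd)
    · exact Primrec.fst.comp (Primrec.snd.comp Primrec.snd)
  exact half_pr.comp h

end Pool.Agent.Q223.IS
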