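import Pool.Agent.Q223.IS.KG
import Pool.Agent.Q223.IS.Am

set_option autoImplicit false
set_option linter.unusedSectionVars false

/-!
# The tower of amalgams
-/

namespace Pool.Agent.Q223.IS

open Monoid SemidirectProduct

/-- The relations of `k_j`. -/
structure RelT {K G : Type} [Group K] [Group G] (Z : Set K) (g : K) (j : ℕ) (f : K →* G) (k : G) :
    Prop where
  ord : k ^ 3 ^ (j + 1) = 1
  com : ∀ z ∈ Z, Commute k (f z)
  inv : f g * k * (f g)⁻¹ = k⁻¹

/-- The statement proved by induction. -/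
structure Tower {K : Type} [Group K] (Z : ℕ → Set K) (g : K) (m : ℕ) (B : Type) [Group B]
    (ι : K →* B) (k : ℕ → B) : Prop where
  inj : Function.Injective ι
  rel : ∀ j < m, RelT (Z j) g j ι (k j)
  lift : ∀ (G : Type) [Group G] (f : K →* G) (k' : ℕ → G), (∀ j < m, RelT (Z j) g j f (k' j)) →
    ∃ F : B →* G, (∀ x, F (ι x) = f x) ∧ ∀ j < m, F (k j) = k' j
  ext : ∀ (G : Type) [Group G] (F F' : B →* G), (∀ x, F (ι x) = F' (ι x)) →
    (∀ j < m, F (k j) = F' (k j)) → F = F'
  exp : ∀ (x : B) (n : ℕ), n ≠ 0 → x ^ n = 1 → x ^ 3 ^ m = 1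
  ord : ∀ j < m, orderOf (k j) = 3 ^ (j + 1)

theorem tower_zero {K : Type} [Group K] (Z : ℕ → Set K) (g : K) (hK : TFn K) :
    Tower Z g 0 K (MonoidHom.id K) (fun _ => 1) where
  inj := Function.injective_id
  rel := fun j hj => absurd hj (Nat.not_lt_zero _)
  lift := fun G _ f k' _ => ⟨f, fun _ => rfl, fun j hj => absurd hj (Nat.not_lt_zero _)⟩
  ext := fun G _ F F' h _ => MonoidHom.ext h
  exp := fun x n hn hx => by rw [hK x n hn hx, one_pow]
  ord := fun j hj => absurd hj (Nat.not_lt_zero _)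

section Step

variable {K : Type} [Group K]

/-- The cyclic group of order `3 ^ (m + 1)`. -/
abbrev Cy (m : ℕ) : Type := Multiplicative (ZMod (3 ^ (m + 1)))

/-- The action of the signs. -/
def sgA (C : Type) [CommGroup C] : ℤˣ →* MulAut C where
  toFun u :=
    { toFun := fun x => x ^ (u : ℤ)
      invFun := fun x => x ^ (u : ℤ)
      left_inv := by
        intro x
        show (x ^ (u : ℤ)) ^ (u : ℤ) = x
        rw [← zpow_mul, ← Units.val_mul, Int.units_mul_self, Units.val_one, zpow_one]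
      right_inv := by
        intro x
        show (x ^ (u : ℤ)) ^ (u : ℤ) = x
        rw [← zpow_mul, ← Units.val_mul, Int.units_mul_self, Units.val_one, zpow_one]
      map_mul' := fun x y => mul_zpow x y _ }
  map_one' := by
    apply MulEquiv.ext
    intro x
    show x ^ ((1 : ℤˣ) : ℤ) = x
    rw [Units.val_one, zpow_one]
  map_mul' u v := by
    apply MulEquiv.ext
    intro x
    show x ^ ((u * v : ℤˣ) : ℤ) = (x ^ (v : ℤ)) ^ (u : ℤ)
    rw [← zpow_mul, Units.val_mul, mul_comm]

/-- The action through a character. -/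
def thc (m : ℕ) {N : Type} [Group N] (χ : N →* ℤˣ) : N →* MulAut (Cy m) :=
  (sgA (Cy m)).comp χ

theorem thc_one (m : ℕ) {N : Type} [Group N] (χ : N →* ℤˣ) (x : N) (h : χ x = 1) (c : Cy m) :
    thc m χ x c = c := by
  show c ^ ((χ x : ℤˣ) : ℤ) = c
  rw [h, Units.val_one, zpow_one]

theorem thc_neg (m : ℕ) {N : Type} [Group N] (χ : N →* ℤˣ) (x : N) (h : χ x = -1) (c : Cy m) :
    thc m χ x c = c⁻¹ := by
  show c ^ ((χ x : ℤˣ) : ℤ) = c⁻¹
  rw [h, Units.val_neg, Units.val_one, zpow_neg, zpow_one]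

/-- The second factor. -/
abbrev Dd (m : ℕ) {N : Type} [Group N] (χ : N →* ℤˣ) : Type := Cy m ⋊[thc m χ] N

/-- The factors of the amalgam. -/
def Fam (B D : Type) : Bool → Type
  | false => B
  | true => D

instance (B D : Type) [Group B] [Group D] : ∀ b, Group (Fam B D b)
  | false => inferInstanceAs (Group B)
  | true => inferInstanceAs (Group D)

/-- The embeddings of the amalgamated subgroup. -/
def famHom {N B D : Type} [Group N] [Group B] [Group D] (β : N →* B) (γ : N →* D) :
    ∀ b, N →* Fam B D b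
  | false => β
  | true => γ

variable {N B D : Type} [Group N] [Group B] [Group D] (β : N →* B) (γ : N →* D)

/-- The first inclusion. -/
noncomputable def i1 : B →* PushoutI (famHom β γ) := PushoutI.of (φ := famHom β γ) false

/-- The second inclusion. -/
noncomputable def i2 : D →* PushoutI (famHom β γ) := PushoutI.of (φ := famHom β γ) true

theorem i1_i2 (x : N) : i1 β γ (β x) = i2 β γ (γ x) := by
  have h1 := PushoutI.of_apply_eq_base (famHom β γ) false x
  have h2 := PushoutI.of_apply_eq_base (famHom β γ) true x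
  exact h1.trans h2.symm

theorem fam_inj (hβ : Function.Injective β) (hγ : Function.Injective γ) :
    ∀ b, Function.Injective (famHom β γ b)
  | false => hβ
  | true => hγ

theorem i1_inj (hβ : Function.Injective β) (hγ : Function.Injective γ) :
    Function.Injective (i1 β γ) := PushoutI.of_injective (fam_inj β γ hβ hγ) false

theorem i2_inj (hβ : Function.Injective β) (hγ : Function.Injective γ) :
    Function.Injective (i2 β γ) := PushoutI.of_injective (fam_inj β γ hβ hγ) true

theorem push_lift {G : Type} [Group G] (f1 : B →* G) (f2 : D →* G)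
    (h : ∀ x, f1 (β x) = f2 (γ x)) :
    ∃ F : PushoutI (famHom β γ) →* G, (∀ x, F (i1 β γ x) = f1 x) ∧ ∀ x, F (i2 β γ x) = f2 x := by
  let fs : ∀ b, Fam B D b →* G := fun b => match b with
    | false => f1
    | true => f2
  have hf : ∀ b, (fs b).comp (famHom β γ b) = f1.comp β := by
    intro b
    cases b with
    | false => rfl
    | true =>
      apply MonoidHom.ext
      intro x
      exact (h x).symm
  refine ⟨PushoutI.lift fs (f1.comp β) hf, ?_, ?_⟩
  · intro x
    exact PushoutI.lift_of fs _ hf (i := false) x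
  · intro x
    exact PushoutI.lift_of fs _ hf (i := true) x

theorem push_ext {G : Type} [Group G] {F F' : PushoutI (famHom β γ) →* G}
    (h1 : ∀ x, F (i1 β γ x) = F' (i1 β γ x)) (h2 : ∀ x, F (i2 β γ x) = F' (i2 β γ x)) :
    F = F' := by
  apply PushoutI.hom_ext_nonempty
  intro b
  cases b with
  | false => exact MonoidHom.ext h1
  | true => exact MonoidHom.ext h2

theorem push_exp (hβ : Function.Injective β) (hγ : Function.Injective γ) (X : ℕ)
    (hB : ∀ (x : B) (n : ℕ), n ≠ 0 → x ^ n = 1 → x ^ X = 1)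
    (hD : ∀ (x : D) (n : ℕ), n ≠ 0 → x ^ n = 1 → x ^ X = 1)
    (z : PushoutI (famHom β γ)) (n : ℕ) (hn : n ≠ 0) (hz : z ^ n = 1) : z ^ X = 1 := by
  refine Am.amalg_exp (fam_inj β γ hβ hγ) X ?_ z n hn hz
  intro b
  cases b with
  | false => exact hB
  | true => exact hD

theorem Dd_exp (m : ℕ) (hN : TFn N) (χ : N →* ℤˣ) (x : Dd m χ) (n : ℕ) (hn : n ≠ 0)
    (hx : x ^ n = 1) : x ^ 3 ^ (m + 1) = 1 := by
  have h1 : x.right = 1 := by
    apply hN _ n hn
    have := congrArg SemidirectProduct.rightHom hx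
    rw [map_pow, map_one] at this
    exact this
  have h2 : x = inl x.left := by
    conv_lhs => rw [← inl_left_mul_inr_right x, h1, map_one, mul_one]
  rw [h2, ← map_pow]
  have h3 : x.left ^ 3 ^ (m + 1) = 1 := by
    show Multiplicative.ofAdd (3 ^ (m + 1) • Multiplicative.toAdd x.left) = _
    have : (3 ^ (m + 1) : ℕ) • Multiplicative.toAdd x.left = 0 := by
      rw [nsmul_eq_mul, ZMod.natCast_self, zero_mul]
    rw [this]
    rfl
  rw [h3, map_one]

/-- Homomorphisms of the cyclic group. -/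
theorem cy_lift (m : ℕ) {G : Type} [Group G] (k : G) (hk : k ^ 3 ^ (m + 1) = 1) :
    ∃ F : Cy m →* G, F (Multiplicative.ofAdd 1) = k := by
  let F : ZMod (3 ^ (m + 1)) →+ Additive G :=
    ZMod.lift (3 ^ (m + 1)) ⟨zmultiplesHom (Additive G) (Additive.ofMul k), by
      rw [zmultiplesHom_apply, natCast_zsmul, ← ofMul_pow, hk, ofMul_one]⟩
  refine ⟨AddMonoidHom.toMultiplicativeLeft F, ?_⟩
  show Additive.toMul (F 1) = k
  have : F ((1 : ℤ) : ZMod (3 ^ (m + 1))) = zmultiplesHom (Additive G) (Additive.ofMul k) 1 :=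
    ZMod.lift_coe _ _ _
  rw [Int.cast_one] at this
  rw [this, zmultiplesHom_apply, one_zsmul]
  rfl

theorem cy_ext (m : ℕ) {G : Type} [Group G] {F F' : Cy m →* G}
    (h : F (Multiplicative.ofAdd 1) = F' (Multiplicative.ofAdd 1)) : F = F' := by
  apply MonoidHom.ext
  intro x
  have h1 : x = (Multiplicative.ofAdd (1 : ZMod (3 ^ (m + 1)))) ^ (x.toAdd.val) := by
    show x = Multiplicative.ofAdd (x.toAdd.val • (1 : ZMod (3 ^ (m + 1))))
    rw [nsmul_eq_mul, mul_one, ZMod.natCast_zmod_val]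
    rfl
  rw [h1, map_pow, map_pow, h]

end Step

theorem RelT.map {K G G' : Type} [Group K] [Group G] [Group G'] {Z : Set K} {g : K} {j : ℕ}
    {f : K →* G} {k : G} (h : RelT Z g j f k) (F : G →* G') : RelT Z g j (F.comp f) (F k) where
  ord := by rw [← map_pow, h.ord, map_one]
  com := fun z hz => (h.com z hz).map F
  inv := by
    show F (f g) * F k * (F (f g))⁻¹ = _
    rw [← map_inv, ← map_mul, ← map_mul, h.inv, map_inv]

theorem tower_step {K : Type} [Group K] (Z : ℕ → Set K) (g : K) (hK : TFn K) (m : ℕ)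
    (M : Subgroup K) (χ : M →* ℤˣ) (hg : ∃ h : g ∈ M, χ ⟨g, h⟩ = -1)
    (hZ : ∀ z ∈ Z m, ∃ h : z ∈ M, χ ⟨z, h⟩ = 1) {B : Type} [Group B] (ι : K →* B) (k : ℕ → B)
    (T : Tower Z g m B ι k) :
    ∃ (B' : Type) (_ : Group B') (ι' : K →* B') (k' : ℕ → B'), Tower Z g (m + 1) B' ι' k' := by
  let N : Subgroup K := Subgroup.closure (insert g (Z m))
  have hgN : g ∈ N := Subgroup.subset_closure (Set.mem_insert _ _)
  have hZN : ∀ z ∈ Z m, z ∈ N := fun z hz => Subgroup.subset_closure (Set.mem_insert_of_mem _ hz)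
  have hNM : N ≤ M := by
    refine (Subgroup.closure_le _).2 ?_
    rintro z (rfl | hz)
    · exact hg.1
    · exact (hZ z hz).1
  let χN : N →* ℤˣ := χ.comp (Subgroup.inclusion hNM)
  have hχg : χN ⟨g, hgN⟩ = -1 := hg.2
  have hχZ : ∀ z (hz : z ∈ Z m), χN ⟨z, hZN z hz⟩ = 1 := fun z hz => (hZ z hz).2
  let β : N →* B := ι.comp N.subtype
  let γ : N →* Dd m χN := inr
  have hβ : Function.Injective β := T.inj.comp N.subtype_injective
  have hγ : Function.Injective γ := inr_injective
  let c : Cy m := Multiplicative.ofAdd 1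
  have hc : c ^ 3 ^ (m + 1) = 1 := by
    show Multiplicative.ofAdd ((3 ^ (m + 1) : ℕ) • (1 : ZMod (3 ^ (m + 1)))) = 1
    rw [nsmul_eq_mul, ZMod.natCast_self, zero_mul]
    rfl
  let ι' : K →* PushoutI (famHom β γ) := (i1 β γ).comp ι
  let k' : ℕ → PushoutI (famHom β γ) := fun j => if j < m then i1 β γ (k j) else i2 β γ (inl c)
  have hk1 : ∀ j, j < m → k' j = i1 β γ (k j) := fun j hj => if_pos hj
  have hk2 : k' m = i2 β γ (inl c) := if_neg (lt_irrefl _)
  have hι : ∀ x (hx : x ∈ N), ι' x = i2 β γ (inr ⟨x, hx⟩) := fun x hx => i1_i2 β γ ⟨x, hx⟩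
  have hNtf : TFn N := by
    intro x n hn hx
    have := hK x.1 n hn (by
      have := congrArg Subtype.val hx
      exact this)
    exact Subtype.ext this
  refine ⟨PushoutI (famHom β γ), inferInstance, ι', k', ?_⟩
  constructor
  · exact (i1_inj β γ hβ hγ).comp T.inj
  · intro j hj
    rcases Nat.lt_succ_iff_lt_or_eq.1 hj with hj | rfl
    · rw [hk1 j hj]
      exact (T.rel j hj).map (i1 β γ)
    · rw [hk2]
      constructor
      · rw [← map_pow, ← map_pow, hc, map_one, map_one]
      · intro z hz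
        rw [hι z (hZN z hz)]
        have h1 := inl_aut (φ := thc j χN) ⟨z, hZN z hz⟩ c
        rw [thc_one j χN _ (hχZ z hz), map_inv, eq_mul_inv_iff_mul_eq] at h1
        have h2 : Commute (inl c : Dd j χN) (inr ⟨z, hZN z hz⟩) := h1
        exact h2.map (i2 β γ)
      · rw [hι g hgN, ← map_inv, ← map_mul, ← map_mul, ← map_inv inr, ← inl_aut,
          thc_neg j χN _ hχg, map_inv, map_inv]
  · intro G _ f κ hκ
    obtain ⟨F1, hF1, hF1'⟩ := T.lift G f κ (fun j hj => hκ j (Nat.lt_succ_of_lt hj))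
    have hm := hκ m (Nat.lt_succ_self m)
    obtain ⟨fc, hfc⟩ := cy_lift m (κ m) hm.ord
    have hcomp : ∀ x (hx : x ∈ N), fc.comp (thc m χN ⟨x, hx⟩).toMonoidHom =
        (MulAut.conj (f x)).toMonoidHom.comp fc := by
      intro x hx
      induction hx using Subgroup.closure_induction with
      | mem x hx =>
        apply cy_ext
        show fc (thc m χN _ c) = f x * fc c * (f x)⁻¹
        have hfc' : fc c = κ m := hfc
        rcases hx with rfl | hx
        · rw [thc_neg m χN _ hχg, map_inv, hfc', hm.inv]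
        · rw [thc_one m χN _ (hχZ x hx), hfc', ← (hm.com x hx).eq, mul_inv_cancel_right]
      | one =>
        apply MonoidHom.ext
        intro d
        have : (⟨1, one_mem N⟩ : N) = 1 := rfl
        show fc (thc m χN _ d) = f 1 * fc d * (f 1)⁻¹
        rw [this, map_one, map_one, one_mul, inv_one, mul_one]
        rfl
      | mul x y hx hy ihx ihy =>
        apply MonoidHom.ext
        intro d
        have e : (⟨x * y, mul_mem hx hy⟩ : N) = ⟨x, hx⟩ * ⟨y, hy⟩ := rfl
        have h1 := fun d => DFunLike.congr_fun ihx d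
        have h2 := fun d => DFunLike.congr_fun ihy d
        have h1' : ∀ d, fc (thc m χN ⟨x, hx⟩ d) = f x * fc d * (f x)⁻¹ := h1
        have h2' : ∀ d, fc (thc m χN ⟨y, hy⟩ d) = f y * fc d * (f y)⁻¹ := h2
        show fc (thc m χN ⟨x * y, mul_mem hx hy⟩ d) = f (x * y) * fc d * (f (x * y))⁻¹
        rw [e, map_mul, MulAut.mul_apply, h1', h2', map_mul]
        group
      | inv x hx ih =>
        apply MonoidHom.ext
        intro d
        have e : (⟨x⁻¹, inv_mem hx⟩ : N) = (⟨x, hx⟩ : N)⁻¹ := rfl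
        have h1 := fun d => DFunLike.congr_fun ih d
        have h1' : ∀ d, fc (thc m χN ⟨x, hx⟩ d) = f x * fc d * (f x)⁻¹ := h1
        show fc (thc m χN ⟨x⁻¹, inv_mem hx⟩ d) = f x⁻¹ * fc d * (f x⁻¹)⁻¹
        have h2 := h1' (thc m χN (⟨x, hx⟩ : N)⁻¹ d)
        rw [← MulAut.mul_apply, ← map_mul, mul_inv_cancel, map_one, MulAut.one_apply] at h2
        rw [e, h2, map_inv f]
        generalize fc (thc m χN (⟨x, hx⟩ : N)⁻¹ d) = y
        group
    let F2 : Dd m χN →* G := SemidirectProduct.lift fc (f.comp N.subtype)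
      (fun x => hcomp x.1 x.2)
    have hF2r : ∀ x : N, F2 (inr x) = f x := fun x => SemidirectProduct.lift_inr _ _ _ x
    have hF2l : ∀ d : Cy m, F2 (inl d) = fc d := fun d => SemidirectProduct.lift_inl _ _ _ d
    obtain ⟨F, hF, hF'⟩ := push_lift β γ F1 F2 (by
      intro x
      show F1 (ι x) = F2 (inr x)
      rw [hF2r, hF1])
    refine ⟨F, ?_, ?_⟩
    · intro x
      show F (i1 β γ (ι x)) = _
      rw [hF, hF1]
    · intro j hj
      rcases Nat.lt_succ_iff_lt_or_eq.1 hj with hj | rfl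
      · rw [hk1 j hj, hF, hF1' j hj]
      · rw [hk2, hF', hF2l]
        exact hfc
  · intro G _ F F' h1 h2
    have e1 : F.comp (i1 β γ) = F'.comp (i1 β γ) := by
      refine T.ext G _ _ h1 ?_
      intro j hj
      have := h2 j (Nat.lt_succ_of_lt hj)
      rw [hk1 j hj] at this
      exact this
    have e1' : ∀ x, F (i1 β γ x) = F' (i1 β γ x) := fun x => DFunLike.congr_fun e1 x
    have e2 : F.comp (i2 β γ) = F'.comp (i2 β γ) := by
      apply SemidirectProduct.hom_ext
      · apply cy_ext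
        have := h2 m (Nat.lt_succ_self m)
        rw [hk2] at this
        exact this
      · apply MonoidHom.ext
        intro x
        show F (i2 β γ (γ x)) = F' (i2 β γ (γ x))
        rw [← i1_i2, e1']
    exact push_ext β γ e1' (fun x => DFunLike.congr_fun e2 x)
  · refine push_exp β γ hβ hγ _ ?_ ?_
    · intro x n hn hx
      rw [pow_succ, pow_mul, T.exp x n hn hx, one_pow]
    · exact Dd_exp m hNtf χN
  · intro j hj
    rcases Nat.lt_succ_iff_lt_or_eq.1 hj with hj | rfl
    · rw [hk1 j hj, orderOf_injective (i1 β γ) (i1_inj β γ hβ hγ), T.ord j hj]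
    · rw [hk2, orderOf_injective (i2 β γ) (i2_inj β γ hβ hγ), orderOf_injective inl inl_injective]
      show orderOf (Multiplicative.ofAdd (1 : ZMod (3 ^ (j + 1)))) = _
      rw [orderOf_ofAdd_eq_addOrderOf, ZMod.addOrderOf_one]

theorem tower {K : Type} [Group K] (Z : ℕ → Set K) (g : K) (hK : TFn K) (M : Subgroup K)
    (χ : M →* ℤˣ) (hg : ∃ h : g ∈ M, χ ⟨g, h⟩ = -1) (m : ℕ)
    (hZ : ∀ j < m, ∀ z ∈ Z j, ∃ h : z ∈ M, χ ⟨z, h⟩ = 1) :
    ∃ (B : Type) (_ : Group B) (ι : K →* B) (k : ℕ → B), Tower Z g m B ι k := by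
  induction m with
  | zero => exact ⟨K, inferInstance, MonoidHom.id K, fun _ => 1, tower_zero Z g hK⟩
  | succ m ih =>
    obtain ⟨B, _, ι, k, T⟩ := ih (fun j hj => hZ j (Nat.lt_succ_of_lt hj))
    exact tower_step Z g hK m M χ hg (hZ m (Nat.lt_succ_self m)) ι k T

end Pool.Agent.Q223.IS
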